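import Pool.Agent.U661.RZ.Fin

/-!
# Corollaries
-/

set_option autoImplicit false

namespace Pool.Agent.U661.RZ

open Finset Pool.Agent.Y195.HF Pool.Agent.W666.GB Pool.Agent.W669.HD Pool.Agent.U661.HS
open Pool.Agent.U661.RW Pool.Agent.R770.QC
open Pool.Agent.U661.RV hiding co

variable {m : ℕ} {V : Type} [NormedAddCommGroup V] [InnerProductSpace ℝ V]

/-- Skew forms in the span of a Clifford family with at least four members. -/
theorem cliff_negRevM {k n : ℕ} (hk : 4 ≤ k) {J : Fin k → V →ₗ[ℝ] V} (hJ : Cliff J)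
    (c : Fin n → Fin k → ℝ) (δ : ℝ) : NegRevM δ (fun x y z u => -(δ * unitT x y z u +
      ∑ a, skewCurv (fun x y => ∑ i, c a i * kf (J i) x y) x y z u) : V → V → V → V → ℝ) := by
  have h1 := rev_cliff' hk hJ c
  have h2 := rev_revM (fun j => j.elim0) (fun j => j.elim0) h1
  refine ⟨n, 0, _, _, _, fun a => span_skew hJ c a, fun b => b.elim0, h2, ?_⟩
  funext x y z u
  simp only [negT, full, plus, Finset.univ_eq_empty, Finset.sum_empty, add_zero, sub_zero]

end Pool.Agent.U661.RZ
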