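import Pool.Agent.U661.RZ.Mixq
import Pool.Agent.U661.RW.Geo
import Pool.Agent.R770.QC.Final

/-!
# The closed cone of Moore products and the Gaussian mean
-/

set_option autoImplicit false

namespace Pool.Agent.U661.RZ

open Finset Pool.Agent.Y195.HF Pool.Agent.W666.GB Pool.Agent.W669.HD Pool.Agent.U661.HS
open Pool.Agent.U661.RV Pool.Agent.U661.RW

variable {m : ℕ}

theorem cont_pow {R : Type} [CommRing R] [Algebra ℝ R] (L : R →ₗ[ℝ] ℝ) (a b c : R) (n : ℕ) :
    ∀ y : R, Continuous fun ε : ℝ => L (y * (a + ε • b + ε ^ 2 • c) ^ n) := by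
  induction n with
  | zero =>
    intro y
    simp only [pow_zero, mul_one]
    exact continuous_const
  | succ n ih =>
    intro y
    have e : (fun ε : ℝ => L (y * (a + ε • b + ε ^ 2 • c) ^ (n + 1))) = fun ε : ℝ =>
        L (y * a * (a + ε • b + ε ^ 2 • c) ^ n) + ε * L (y * b * (a + ε • b + ε ^ 2 • c) ^ n) +
          ε ^ 2 * L (y * c * (a + ε • b + ε ^ 2 • c) ^ n) := by
      funext ε
      have h : y * (a + ε • b + ε ^ 2 • c) ^ (n + 1) = y * a * (a + ε • b + ε ^ 2 • c) ^ n +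
          ε • (y * b * (a + ε • b + ε ^ 2 • c) ^ n) +
          ε ^ 2 • (y * c * (a + ε • b + ε ^ 2 • c) ^ n) := by
        rw [pow_succ]
        simp only [Algebra.smul_def]
        ring
      rw [h, map_add, map_add, map_smul, map_smul, smul_eq_mul, smul_eq_mul]
    rw [e]
    exact ((ih _).add (continuous_id.mul (ih _))).add ((continuous_id.pow 2).mul (ih _))

/-- limits of elements of the cone -/
def Kb (f : Ed m) (z : Zc (I2 m → ℂ)) : Prop :=
  ∃ b c : Zc (I2 m → ℂ), ∀ ε : ℝ, 0 < ε → z + ε • b + ε ^ 2 • c ∈ Kc f 1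

theorem Kb.of_mem {f : Ed m} {z : Zc (I2 m → ℂ)} (h : z ∈ Kc f 1) : Kb f z :=
  ⟨0, 0, fun ε _ => by rwa [smul_zero, smul_zero, add_zero, add_zero]⟩

theorem Kb.add {f : Ed m} {z z' : Zc (I2 m → ℂ)} (h : Kb f z) (h' : Kb f z') : Kb f (z + z') := by
  obtain ⟨b, c, hb⟩ := h
  obtain ⟨b', c', hb'⟩ := h'
  refine ⟨b + b', c + c', fun ε hε => ?_⟩
  have e : z + z' + ε • (b + b') + ε ^ 2 • (c + c') =
      (z + ε • b + ε ^ 2 • c) + (z' + ε • b' + ε ^ 2 • c') := by
    rw [smul_add, smul_add]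
    abel
  rw [e]
  exact AddSubmonoid.add_mem _ (hb ε hε) (hb' ε hε)

theorem Kb.zero (f : Ed m) : Kb f (0 : Zc (I2 m → ℂ)) := Kb.of_mem (AddSubmonoid.zero_mem _)

theorem Kb.sum {f : Ed m} {ι : Type} (s : Finset ι) {z : ι → Zc (I2 m → ℂ)}
    (h : ∀ i ∈ s, Kb f (z i)) : Kb f (∑ i ∈ s, z i) := by
  classical
  induction s using Finset.induction with
  | empty => rw [Finset.sum_empty]; exact Kb.zero f
  | insert i s hi ih =>
    rw [Finset.sum_insert hi]
    exact (h i (Finset.mem_insert_self _ _)).add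
      (ih fun j hj => h j (Finset.mem_insert_of_mem hj))

/-- Positivity, with a power of an element `u` of the cone. -/
theorem Kb.pos {f : Ed m} {W : Qd m} (hW : Hq W)
    (hf : Fx f (ff false true (idM : Mt m))) (hx : Rx f (xq W))
    {N k n : ℕ} (hN : N + k + n = m) {u z : Zc (I2 m → ℂ)} (hu : u ∈ Kc f 1) (hz : Kb f z) :
    0 ≤ LR m (xq W ^ (2 * N) * u ^ k * z ^ n) := by
  obtain ⟨b, c, hb⟩ := hz
  have h1 := ((cont_pow (LR m) z b c n (xq W ^ (2 * N) * u ^ k)).tendsto 0).mono_left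
    (nhdsWithin_le_nhds (s := Set.Ioi 0))
  simp only [zero_smul, add_zero, ne_eq, OfNat.ofNat_ne_zero, not_false_eq_true, zero_pow] at h1
  refine ge_of_tendsto h1 ?_
  filter_upwards [self_mem_nhdsWithin] with ε hε
  rw [mul_assoc]
  exact Kc_pos hW hf hx (n := k + n) (by omega) (Kc_mul (Kc_pow hu k) (Kc_pow (hb ε hε) n))

/-- A product of two elements. -/
theorem Kb.two {f : Ed m} (hf : Fx f (ff false true (idM : Mt m))) {S T : Qd m} {r : ℝ}
    (hr : 0 ≤ r)
    (hS : ∀ ε : ℝ, 0 < ε → PDq (S + ε • oneq m)) (hT : ∀ ε : ℝ, 0 < ε → PDq (T + ε • oneq m))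
    (hfS : Fx f (xq S)) (hfT : Fx f (xq T)) : Kb f ((-r) • (xq S * xq T)) := by
  have hadd : ∀ {x : Zc (I2 m → ℂ)} {ε : ℝ}, Fx f x → Fx f (x + ε • ff false true (idM : Mt m)) := by
    intro x ε h
    unfold Fx at *
    rw [← Complex.coe_smul, map_add, map_add, map_smul, map_smul, h, hf]
  refine ⟨(-r) • ((xq S + xq T) * ff false true (idM : Mt m)),
    (-r) • (ff false true (idM : Mt m) ^ 2), fun ε hε => ?_⟩
  have e1 : ∀ T : Qd m, xq (T + ε • oneq m) = xq T + ε • ff false true (idM : Mt m) := by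
    intro T
    rw [xq_add, xq_smul, xq_one, Complex.coe_smul]
  have h := Kc_gen (f := f) (n := 1) (r := r) hr (L := [S + ε • oneq m, T + ε • oneq m])
    (fun X hX => by
      rcases List.mem_cons.1 hX with h | h
      · rw [h]
        exact ⟨hS ε hε, by rw [e1]; exact hadd hfS⟩
      · have : X = T + ε • oneq m := by simpa using h
        rw [this]
        exact ⟨hT ε hε, by rw [e1]; exact hadd hfT⟩) rfl
  convert h using 1
  rw [prq, List.map_cons, List.map_cons, List.map_nil, List.prod_cons, List.prod_cons,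
    List.prod_nil, mul_one, e1, e1, pow_one, Complex.coe_smul]
  simp only [Algebra.smul_def, map_neg, map_pow, map_mul, map_one]
  ring

variable {κ : Type} [Fintype κ] {ι : Type} [Fintype ι]

theorem rc_rs (p : κ → ℝ) (A : κ → Fin m × Bool → Fin m × Bool → ℝ) :
    rc p (fun a => (cm (A a) : Mt m)) = cm (rs p A) := by
  funext i j
  simp only [rc, rs, Finset.sum_apply, Pi.smul_apply, smul_eq_mul, cm]
  push_cast
  rfl

/-- Any three real combinations of the skew matrices, together with a combination of the symmetric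
ones, are reversed by a symmetry for which `D` is in the closed cone. -/
def RevK (A : κ → Fin m × Bool → Fin m × Bool → ℝ) (H : ι → Fin m × Bool → Fin m × Bool → ℝ)
    (D : Zc (I2 m → ℂ)) : Prop :=
  ∀ (p : Fin 3 → κ → ℝ) (c : ι → ℝ), ∃ f : Ed m, Fx f (ff false true (idM : Mt m)) ∧
    Rx f (WW (cm (rs (p 0) A)) (cm (rs (p 1) A)) (cm (rs (p 2) A)) + xs (rs c H)) ∧ Kb f D

theorem rs_skew {A : κ → Fin m × Bool → Fin m × Bool → ℝ} (hA : ∀ a i j, A a j i = - A a i j)
    (c : κ → ℝ) (i j : Fin m × Bool) : rs c A j i = - rs c A i j := by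
  simp only [rs, Finset.sum_apply, Pi.smul_apply, smul_eq_mul, hA _ i j]
  rw [← Finset.sum_neg_distrib]
  exact Finset.sum_congr rfl fun a _ => by ring

theorem revK_pos {A : κ → Fin m × Bool → Fin m × Bool → ℝ} (hA : ∀ a i j, A a j i = - A a i j)
    {H : ι → Fin m × Bool → Fin m × Bool → ℝ} (hH : ∀ a i j, H a i j = H a j i)
    {D : Zc (I2 m → ℂ)} (h : RevK A H D) {δ : ℝ} (hδ : 0 ≤ δ)
    {N n : ℕ} (hN : N + n = m) :
    0 ≤ LR m ((∑ a, qi (cm (A a)) + ∑ a, xs (H a) ^ 2) ^ N *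
      ((-2 * δ : ℝ) • ff false true (idM : Mt m) ^ 2 + D) ^ n) := by
  classical
  have e : ∑ a, qi (cm (A a) : Mt m) + ∑ a, xs (H a) ^ 2 =
      ∑ i : (κ × Fin 3) ⊕ ι, (Sum.elim (xf fun a => (cm (A a) : Mt m))
        (fun a => xs (H a)) i) ^ 2 := by
    rw [Fintype.sum_sum_type, ← xf_sq]
    simp only [Sum.elim_inl, Sum.elim_inr]
  rw [e]
  refine gauss_pos (Sum.elim (xf fun a => (cm (A a) : Mt m)) (fun a => xs (H a))) _ (LR m) N
    fun ξ => ?_
  obtain ⟨f, hf, h1, hD⟩ := h ![fun a => ξ (Sum.inl (a, 0)), fun a => ξ (Sum.inl (a, 1)),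
    fun a => ξ (Sum.inl (a, 2))] (fun a => ξ (Sum.inr a))
  rw [Fintype.sum_sum_type]
  simp only [Sum.elim_inl, Sum.elim_inr]
  rw [xf_sum (fun a => (cm (A a) : Mt m)) (fun i => ξ (Sum.inl i)),
    ← xs_sum (fun a => ξ (Sum.inr a)) H, rc_rs, rc_rs, rc_rs]
  set W : Qd m := ![rs (fun a => ξ (Sum.inr a)) H, rs (fun a => ξ (Sum.inl (a, 0))) A,
    rs (fun a => ξ (Sum.inl (a, 1))) A, rs (fun a => ξ (Sum.inl (a, 2))) A] with hWd
  have hW : Hq W :=
    ⟨fun i j => rs_symm hH _ i j, fun i j => rs_skew hA _ i j, fun i j => rs_skew hA _ i j,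
      fun i j => rs_skew hA _ i j⟩
  have hu : (-2 * δ : ℝ) • ff false true (idM : Mt m) ^ 2 ∈ Kc f 1 := by
    have h2 := Kc_gen (f := f) (n := 1) (r := 2 * δ) (by positivity) (L := [oneq m, oneq m])
      (fun X hX => by
        have : X = oneq m := by simpa using hX
        rw [this]
        exact ⟨pdq_one, by rw [xq_one]; exact hf⟩) rfl
    convert h2 using 1
    rw [prq, List.map_cons, List.map_cons, List.map_nil, List.prod_cons, List.prod_cons,
      List.prod_nil, mul_one, xq_one, Complex.coe_smul, sq]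
    congr 1
    ring
  have h3 : xq W = WW (cm (rs (fun a => ξ (Sum.inl (a, 0))) A))
      (cm (rs (fun a => ξ (Sum.inl (a, 1))) A)) (cm (rs (fun a => ξ (Sum.inl (a, 2))) A)) +
      xs (rs (fun a => ξ (Sum.inr a)) H) := rfl
  rw [← h3]
  have h4 := Kb.pos hW hf h1 (N := N) (k := 0) (n := n) (by omega) (AddSubmonoid.zero_mem _)
    ((Kb.of_mem hu).add hD)
  rwa [pow_zero, mul_one] at h4

end Pool.Agent.U661.RZ
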