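import Pool.Agent.U661.RZ.Main

/-!
# Examples and integrated forms
-/

set_option autoImplicit false

namespace Pool.Agent.U661.RZ

open Finset Pool.Agent.Y195.HF Pool.Agent.W666.GB Pool.Agent.W669.HD Pool.Agent.U661.HS
open Pool.Agent.U661.RW Pool.Agent.R770.QC
open Pool.Agent.U661.RV hiding co

variable {m : ℕ} {V : Type} [NormedAddCommGroup V] [InnerProductSpace ℝ V]

/-- the quadruple of a symmetric form -/
def symq (S : V → V → ℝ) : Fin 4 → V → V → ℝ := ![S, fun _ _ => 0, fun _ _ => 0, fun _ _ => 0]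

theorem symq_pq {g : V → V} {S : V → V → ℝ} (h : Psd S) (hg : Pres g S) :
    PQ g (symq S 0) (symq S 1) (symq S 2) (symq S 3) :=
  ⟨psd_qpos h, hg, fun _ _ => rfl, fun _ _ => rfl, fun _ _ => rfl⟩

omit [NormedAddCommGroup V] [InnerProductSpace ℝ V] in
theorem moore_sq (S S' : V → V → ℝ) (x y z w : V) :
    moore (symq S) (symq fun x y => 1 / 3 * S' x y) x y z w = kn S S' x y z w := by
  have h0 : symq S 0 = S := rfl
  have h1 : symq S 1 = fun _ _ => 0 := rfl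
  have h2 : symq S 2 = fun _ _ => 0 := rfl
  have h3 : symq S 3 = fun _ _ => 0 := rfl
  have k0 : symq (fun x y => 1 / 3 * S' x y) 0 = fun x y => 1 / 3 * S' x y := rfl
  have k1 : symq (fun x y => 1 / 3 * S' x y) 1 = fun _ _ => 0 := rfl
  have k2 : symq (fun x y => 1 / 3 * S' x y) 2 = fun _ _ => 0 := rfl
  have k3 : symq (fun x y => 1 / 3 * S' x y) 3 = fun _ _ => 0 := rfl
  simp only [moore, h0, h1, h2, h3, k0, k1, k2, k3, EH, R770.NS.knSq, skewCurv, kn, Pi.add_apply]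
  ring

/-- Products of symmetric forms are Moore products. -/
theorem SCone.mcone {g : V → V} {D : V → V → V → V → ℝ} (h : SCone g D) : MCone g D := by
  obtain ⟨r, S, S', hS, hD⟩ := h
  refine ⟨r, fun j => symq (S j), fun j => symq fun x y => 1 / 3 * S' j x y, fun j =>
    ⟨symq_pq (hS j).1.1 (hS j).2.1, symq_pq ⟨⟨fun x x' y => ?_, fun t x y => ?_, fun x y => ?_⟩,
      fun x => ?_⟩ fun x y => ?_⟩, fun x y z w => ?_⟩
  · rw [(hS j).1.2.1.add]; ring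
  · rw [(hS j).1.2.1.smul]; ring
  · rw [(hS j).1.2.1.symm x y]
  · have := (hS j).1.2.2 x
    positivity
  · simp only [(hS j).2.2 x y]
  · rw [hD]
    exact Finset.sum_congr rfl fun j _ => (moore_sq (S j) (S' j) x y z w).symm

/-- the quadruple of a form and its multiple -/
def qdr (S B₁ B₂ B₃ : V → V → ℝ) (c : ℝ) : Fin 4 → V → V → ℝ :=
  ![fun x y => c * S x y, fun x y => c * B₁ x y, fun x y => c * B₂ x y, fun x y => c * B₃ x y]

theorem qpos_smul {S B₁ B₂ B₃ : V → V → ℝ} (h : QPos S B₁ B₂ B₃) {c : ℝ} (hc : 0 ≤ c) :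
    QPos (fun x y => c * S x y) (fun x y => c * B₁ x y) (fun x y => c * B₂ x y)
      (fun x y => c * B₃ x y) where
  symm := ⟨fun x x' y => by rw [h.symm.add]; ring, fun t x y => by rw [h.symm.smul]; ring,
    fun x y => by rw [h.symm.symm x y]⟩
  skew₁ := ⟨fun x x' y => by rw [h.skew₁.add]; ring, fun t x y => by rw [h.skew₁.smul]; ring,
    fun x y => by rw [h.skew₁.anti x y]; ring⟩
  skew₂ := ⟨fun x x' y => by rw [h.skew₂.add]; ring, fun t x y => by rw [h.skew₂.smul]; ring,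
    fun x y => by rw [h.skew₂.anti x y]; ring⟩
  skew₃ := ⟨fun x x' y => by rw [h.skew₃.add]; ring, fun t x y => by rw [h.skew₃.smul]; ring,
    fun x y => by rw [h.skew₃.anti x y]; ring⟩
  pos x₀ x₁ x₂ x₃ := by
    have h1 := mul_nonneg hc (h.pos x₀ x₁ x₂ x₃)
    linarith

theorem qdr_pq {g : V → V} {S B₁ B₂ B₃ : V → V → ℝ} (h : PQ g S B₁ B₂ B₃) {c : ℝ} (hc : 0 ≤ c) :
    PQ g (qdr S B₁ B₂ B₃ c 0) (qdr S B₁ B₂ B₃ c 1) (qdr S B₁ B₂ B₃ c 2) (qdr S B₁ B₂ B₃ c 3) :=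
  ⟨qpos_smul h.q hc, fun x y => by simp only [qdr, Matrix.cons_val_zero, h.s x y],
    fun x y => congrArg (fun t => c * t) (h.b₁ x y), fun x y => congrArg (fun t => c * t) (h.b₂ x y),
    fun x y => congrArg (fun t => c * t) (h.b₃ x y)⟩

omit [NormedAddCommGroup V] [InnerProductSpace ℝ V] in
theorem moore_qdr (S B₁ B₂ B₃ : V → V → ℝ) (c : ℝ) (x y z w : V) :
    moore (qdr S B₁ B₂ B₃ 1) (qdr S B₁ B₂ B₃ (c / 2)) x y z w = c * EH S B₁ B₂ B₃ x y z w := by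
  have h0 : ∀ c : ℝ, qdr S B₁ B₂ B₃ c 0 = fun x y => c * S x y := fun _ => rfl
  have h1 : ∀ c : ℝ, qdr S B₁ B₂ B₃ c 1 = fun x y => c * B₁ x y := fun _ => rfl
  have h2 : ∀ c : ℝ, qdr S B₁ B₂ B₃ c 2 = fun x y => c * B₂ x y := fun _ => rfl
  have h3 : ∀ c : ℝ, qdr S B₁ B₂ B₃ c 3 = fun x y => c * B₃ x y := fun _ => rfl
  simp only [moore, h0, h1, h2, h3, EH, R770.NS.knSq, skewCurv, Pi.add_apply]
  ring

/-- The cone of the tensors `EH`. -/
theorem eh_mcone {g : V → V} {r : ℕ} {c : Fin r → ℝ} {S B₁ B₂ B₃ : Fin r → V → V → ℝ}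
    (h : ∀ j, 0 ≤ c j ∧ PQ g (S j) (B₁ j) (B₂ j) (B₃ j)) :
    MCone g fun x y z w => ∑ j, c j * EH (S j) (B₁ j) (B₂ j) (B₃ j) x y z w :=
  ⟨r, fun j => qdr (S j) (B₁ j) (B₂ j) (B₃ j) 1, fun j => qdr (S j) (B₁ j) (B₂ j) (B₃ j) (c j / 2),
    fun j => ⟨qdr_pq (h j).2 zero_le_one, qdr_pq (h j).2 (by have := (h j).1; positivity)⟩,
    fun x y z w => Finset.sum_congr rfl fun j _ => (moore_qdr _ _ _ _ (c j) x y z w).symm⟩

/-- the pointwise hypothesis -/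
def NegRevM (δ : ℝ) (R : V → V → V → V → ℝ) : Prop :=
  ∃ (n q : ℕ) (A : Fin n → V → V → ℝ) (h : Fin q → V → V → ℝ) (D : V → V → V → V → ℝ),
    (∀ a, SkewForm (A a)) ∧ (∀ b, SymForm (h b)) ∧ RevM A h D ∧ R = negT (full (plus δ D) A h)

theorem negRevM_bound (e : OrthonormalBasis (Fin m × Bool) ℝ V) {R : V → V → V → V → ℝ}
    {δ : ℝ} (hδ : 0 ≤ δ) (h : NegRevM δ R) : roundGB m δ ≤ (-1) ^ m * gbc e R := by
  obtain ⟨n, q, A, h, D, hA, hh, hR, rfl⟩ := h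
  have h1 := revM_neg e hδ hA hh hR
  exact h1.1.trans h1.2

/-- The quaternionic cone. -/
theorem qcone_negRevM {δ : ℝ} {R : V → V → V → V → ℝ} (h : QCone δ R) : NegRevM δ R := by
  obtain ⟨n, c, S, B₁, B₂, B₃, hq, hR⟩ := h
  refine ⟨0, 0, fun a => a.elim0, fun a => a.elim0, fun x y z w => ∑ a, c a *
    EH (S a) (B₁ a) (B₂ a) (B₃ a) x y z w, fun a => a.elim0, fun a => a.elim0,
    fun _ p => ⟨LinearIsometry.id, fun x y => by simp [lcf], Or.inl ⟨fun i x y => by simp [lcf],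
      eh_mcone fun j => ⟨(hq j).1, (hq j).2, fun _ _ => rfl, fun _ _ => rfl, fun _ _ => rfl,
        fun _ _ => rfl⟩⟩⟩, ?_⟩
  funext x y z w
  rw [hR]
  simp only [negT, full, plus, Finset.univ_eq_empty, Finset.sum_empty, add_zero, sub_zero]

/-- The hypothesis of the case of symmetric forms `S j`, `S' j`. -/
theorem rev_revM {n q r : ℕ} {A : Fin n → V → V → ℝ} {h : Fin q → V → V → ℝ}
    {S S' : Fin r → V → V → ℝ} (hS : ∀ j, Psd (S j)) (hS' : ∀ j, Psd (S' j)) (hr : Rev A h S S') :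
    RevM A h fun x y z w => ∑ j, kn (S j) (S' j) x y z w := by
  intro c p
  obtain ⟨g, h1, h2, h3⟩ := hr c p
  have hc : SCone g fun x y z w => ∑ j, kn (S j) (S' j) x y z w :=
    ⟨r, S, S', fun j => ⟨⟨hS j, hS' j⟩, fun x y => (h1 j x y).1, fun x y => (h1 j x y).2⟩,
      fun _ _ _ _ => rfl⟩
  refine ⟨g, h2, ?_⟩
  rcases h3 with h3 | ⟨h3, h4⟩
  · exact Or.inl ⟨h3, hc.mcone⟩
  · exact Or.inr ⟨h3, h4, hc⟩

/-- One isometry which reverses all the skew forms and all the symmetric forms `h b`. -/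
theorem revM_one {n q : ℕ} {A : Fin n → V → V → ℝ} {h : Fin q → V → V → ℝ}
    {D : V → V → V → V → ℝ} (g : V →ₗᵢ[ℝ] V) (hA : ∀ a, Revs g (A a)) (hh : ∀ b, Revs g (h b))
    (hD : MCone g D) : RevM A h D :=
  fun c p => ⟨g, lcf_rev hh c, Or.inl ⟨fun i => lcf_rev hA (p i), hD⟩⟩

/-- At most two skew forms, preserved by isometries which reverse the symmetric forms. -/
theorem revM_two {n q : ℕ} {A : Fin n → V → V → ℝ} {h : Fin q → V → V → ℝ}
    {D : V → V → V → V → ℝ} (hn : n ≤ 2)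
    (H : ∀ c : Fin q → ℝ, ∃ g : V →ₗᵢ[ℝ] V, (∀ a, Pres g (A a)) ∧ Revs g (lcf c h) ∧
      SCone g D) : RevM A h D := by
  intro c p
  obtain ⟨g, h1, h2, h3⟩ := H c
  obtain ⟨v, hv, hv'⟩ := three_dep hn p
  refine ⟨g, h2, Or.inr ⟨fun i => lcf_fix h1 (p i), ⟨v, hv, fun x y => ?_⟩, h3⟩⟩
  simp only [lcf, Finset.mul_sum]
  rw [Finset.sum_comm]
  refine Finset.sum_eq_zero fun a _ => ?_
  have h4 : ∑ i, v i * (p i a * A a x y) = (∑ i, v i * p i a) * A a x y := by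
    rw [Finset.sum_mul]
    exact Finset.sum_congr rfl fun i _ => by ring
  rw [h4, hv', zero_mul]

/-- The isometry of an orthogonal complex structure. -/
noncomputable def cisom {J : V →ₗ[ℝ] V} (hJ : CStr J) : V →ₗᵢ[ℝ] V where
  toLinearMap := J
  norm_map' x := by
    have h := hJ.isom x x
    rw [real_inner_self_eq_norm_sq, real_inner_self_eq_norm_sq] at h
    exact (sq_eq_sq₀ (norm_nonneg _) (norm_nonneg _)).1 h

end Pool.Agent.U661.RZ
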