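import Pool.Agent.U661.RZ.Rig2

/-!
# Integrated forms and examples
-/

set_option autoImplicit false

namespace Pool.Agent.U661.RZ

open Finset Pool.Agent.Y195.HF Pool.Agent.W666.GB Pool.Agent.W669.HD Pool.Agent.U661.HS
open Pool.Agent.U661.RW Pool.Agent.R770.QC
open Pool.Agent.U661.RV hiding co

variable {m : ℕ} {V : Type} [NormedAddCommGroup V] [InnerProductSpace ℝ V]

section field

open MeasureTheory

variable {M : Type} [MeasurableSpace M] (μ : Measure M) (K : CurvField m M) (δ : M → ℝ)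

theorem field_sign (h : ∀ p, 0 ≤ δ p ∧ NegRevM (δ p) (K.R p)) :
    0 ≤ (-1) ^ m * ∫ p, K.gb p ∂μ := by
  rw [← integral_const_mul]
  exact integral_nonneg fun p =>
    (roundGB_nonneg (h p).1).trans (negRevM_bound (K.e p) (h p).1 (h p).2)

theorem field_low (h : ∀ p, 0 ≤ δ p ∧ NegRevM (δ p) (K.R p)) (hi : Integrable K.gb μ) :
    ∫ p, roundGB m (δ p) ∂μ ≤ (-1) ^ m * ∫ p, K.gb p ∂μ := by
  rw [← integral_const_mul]
  exact integral_mono_of_nonneg (Filter.Eventually.of_forall fun p => roundGB_nonneg (h p).1)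
    (hi.const_mul _) (Filter.Eventually.of_forall fun p =>
      negRevM_bound (K.e p) (h p).1 (h p).2)

theorem field_tang (hm : 0 < m) (h : ∀ p, 0 ≤ δ p ∧ NegRevM (δ p) (K.R p))
    (hi : Integrable K.gb μ) :
    ∫ p, tangGB m (δ p) (scal (K.e p) (K.R p)) ∂μ ≤ (-1) ^ m * ∫ p, K.gb p ∂μ := by
  have h1 : ∀ p, _ := fun p => negRevM_tang (K.e p) hm (h p).1 (h p).2
  rw [← integral_const_mul]
  exact integral_mono_of_nonneg (Filter.Eventually.of_forall fun p =>
    (roundGB_nonneg (h p).1).trans (h1 p).1)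
    (hi.const_mul _) (Filter.Eventually.of_forall fun p => (h1 p).2)

theorem field_rigid (hm : 0 < m) (h : ∀ p, 0 ≤ δ p ∧ NegRevM (δ p) (K.R p))
    (hi : Integrable K.gb μ)
    (heq : (-1) ^ m * ∫ p, K.gb p ∂μ ≤ ∫ p, roundGB m (δ p) ∂μ) :
    ∀ᵐ p ∂μ, 0 < δ p → ∀ x y z w, K.R p x y z w = -(δ p * unitT x y z w) := by
  have h1 : ∀ p, roundGB m (δ p) ≤ (-1) ^ m * K.gb p :=
    fun p => negRevM_bound (K.e p) (h p).1 (h p).2
  have hr : ∀ p, 0 ≤ roundGB m (δ p) := fun p => roundGB_nonneg (h p).1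
  have key : ∀ᵐ p ∂μ, (-1) ^ m * K.gb p ≤ roundGB m (δ p) := by
    by_cases hδi : Integrable (fun p => roundGB m (δ p)) μ
    · have h2 : Integrable (fun p => (-1) ^ m * K.gb p - roundGB m (δ p)) μ :=
        (hi.const_mul _).sub hδi
      have h3 : ∫ p, ((-1) ^ m * K.gb p - roundGB m (δ p)) ∂μ = 0 := by
        rw [integral_sub (hi.const_mul _) hδi, integral_const_mul]
        refine le_antisymm (by linarith) ?_
        have := field_low μ K δ h hi
        linarith
      have h4 := (integral_eq_zero_iff_of_nonneg (fun p => sub_nonneg.2 (h1 p)) h2).1 h3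
      filter_upwards [h4] with p hp
      have h5 : (-1) ^ m * K.gb p - roundGB m (δ p) = 0 := hp
      linarith
    · rw [integral_undef hδi, ← integral_const_mul] at heq
      have h3 : ∫ p, (-1) ^ m * K.gb p ∂μ = 0 :=
        le_antisymm heq (integral_nonneg fun p => (hr p).trans (h1 p))
      have h4 := (integral_eq_zero_iff_of_nonneg (fun p => (hr p).trans (h1 p))
        (hi.const_mul _)).1 h3
      filter_upwards [h4] with p hp
      have h5 : (-1) ^ m * K.gb p = 0 := hp
      rw [h5]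
      exact hr p
  filter_upwards [key] with p hp hδ
  exact negRevM_rigid (K.e p) hm hδ (h p).2 hp

end field

/-- The curvature tensor of a submanifold of a product of spaces of constant sectional curvature,
constant holomorphic sectional curvature and constant quaternionic sectional curvature. -/
noncomputable def ambR {n q r : ℕ} (δ : ℝ) (k : Fin r → ℝ) (S : Fin r → V → V → ℝ)
    (c : Fin n → ℝ) (w : Fin n → V → V → ℝ) (h : Fin q → V → V → ℝ) (x y z u : V) : ℝ :=
  -(δ * unitT x y z u + ∑ i, k i * (S i x z * S i y u - S i x u * S i y z) +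
    ∑ a, c a * skewCurv (w a) x y z u) + ∑ b, (h b x z * h b y u - h b x u * h b y z)

theorem psd_smul {S : V → V → ℝ} (h : Psd S) {t : ℝ} (ht : 0 ≤ t) :
    Psd fun x y => t * S x y :=
  ⟨⟨fun x x' y => by rw [h.1.add]; ring, fun t x y => by rw [h.1.smul]; ring,
    fun x y => by rw [h.1.symm x y]⟩, fun x => mul_nonneg ht (h.2 x)⟩

theorem amb_negRevM {n q r : ℕ} {δ : ℝ} {k : Fin r → ℝ} {S : Fin r → V → V → ℝ}
    {c : Fin n → ℝ} {w : Fin n → V → V → ℝ} {h : Fin q → V → V → ℝ}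
    (hk : ∀ i, 0 ≤ k i) (hS : ∀ i, Psd (S i)) (hc : ∀ a, 0 ≤ c a) (hw : ∀ a, SkewForm (w a))
    (hh : ∀ b, HS.SymForm (h b))
    (H : ∀ d : Fin q → ℝ, ∃ g : V →ₗᵢ[ℝ] V, (∀ i, Pres g (S i)) ∧ Revs g (lcf d h) ∧
      ((∀ a, Revs g (w a)) ∨ n ≤ 2 ∧ ∀ a, Pres g (w a))) :
    NegRevM δ (ambR δ k S c w h) := by
  set A : Fin n → V → V → ℝ := fun a x y => Real.sqrt (c a) * w a x y with hAd
  have hA : ∀ a, SkewForm (A a) := fun a =>
    ⟨fun x x' y => by simp only [hAd, (hw a).add]; ring,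
      fun t x y => by simp only [hAd, (hw a).smul]; ring,
      fun x y => by simp only [hAd, (hw a).anti x y]; ring⟩
  set D : V → V → V → V → ℝ := fun x y z u =>
    ∑ i, kn (fun x y => k i / 2 * S i x y) (S i) x y z u with hD
  refine ⟨n, q, A, h, D, hA, hh, fun d p => ?_, ?_⟩
  · obtain ⟨g, h1, h2, h3⟩ := H d
    have hc : SCone g D := ⟨r, fun i x y => k i / 2 * S i x y, S, fun i =>
      ⟨⟨psd_smul (hS i) (by have := hk i; positivity), hS i⟩,
        fun x y => congrArg (fun t => k i / 2 * t) (h1 i x y), h1 i⟩, fun _ _ _ _ => rfl⟩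
    refine ⟨g, h2, ?_⟩
    rcases h3 with h3 | ⟨hn, h3⟩
    · exact Or.inl ⟨fun i => lcf_rev (fun a x y => by simp only [hAd, h3 a x y]; ring) (p i),
        hc.mcone⟩
    · obtain ⟨v, hv, hv'⟩ := three_dep hn p
      refine Or.inr ⟨fun i => lcf_fix (fun a x y => by simp only [hAd, h3 a x y]) (p i),
        ⟨v, hv, fun x y => ?_⟩, hc⟩
      simp only [lcf, Finset.mul_sum]
      rw [Finset.sum_comm]
      refine Finset.sum_eq_zero fun a _ => ?_
      have h4 : ∑ i, v i * (p i a * A a x y) = (∑ i, v i * p i a) * A a x y := by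
        rw [Finset.sum_mul]
        exact Finset.sum_congr rfl fun i _ => by ring
      rw [h4, hv', zero_mul]
  · funext x y z u
    simp only [ambR, negT, full, plus, hD]
    have h1 : ∀ i, kn (fun x y => k i / 2 * S i x y) (S i) x y z u =
        k i * (S i x z * S i y u - S i x u * S i y z) := fun i => by
      simp only [kn]
      ring
    have h2 : ∀ a, skewCurv (A a) x y z u = c a * skewCurv (w a) x y z u := by
      intro a
      have hs : Real.sqrt (c a) * Real.sqrt (c a) = c a := Real.mul_self_sqrt (hc a)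
      simp only [hAd, skewCurv]
      linear_combination (2 * (w a x y * w a z u) + w a x z * w a y u - w a x u * w a y z) * hs
    simp only [h1, h2]
    ring

/-- The tensor of the hermitian class. -/
noncomputable def herR {n q r : ℕ} (δ : ℝ) (l : Fin r → ℝ) (B : Fin r → V → V → ℝ)
    (A : Fin n → V → V → ℝ) (h : Fin q → V → V → ℝ) (x y z u : V) : ℝ :=
  -(δ * unitT x y z u + ∑ j, (3 * l j ^ 2 * unitT x y z u - skewCurv (B j) x y z u) +
    ∑ a, skewCurv (A a) x y z u) + ∑ b, (h b x z * h b y u - h b x u * h b y z)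

theorem her_negRevM {n q r : ℕ} {δ : ℝ} {l : Fin r → ℝ} {B : Fin r → V → V → ℝ}
    {A : Fin n → V → V → ℝ} {h : Fin q → V → V → ℝ} (g : V →ₗᵢ[ℝ] V)
    (hl : ∀ j, 0 ≤ l j) (hB : ∀ j, SkewForm (B j))
    (hBl : ∀ j x y, B j x y ≤ l j * (‖x‖ * ‖y‖)) (hBg : ∀ j, Pres g (B j))
    (hA : ∀ a, SkewForm (A a)) (hAg : ∀ a, Revs g (A a)) (hh : ∀ b, HS.SymForm (h b))
    (hhg : ∀ b, Revs g (h b)) : NegRevM δ (herR δ l B A h) := by
  have hM := eh_mcone (g := g) (r := r) (c := fun _ => 1)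
    (S := fun j x y => l j * inner ℝ x y) (B₁ := B) (B₂ := fun _ _ _ => 0)
    (B₃ := fun _ _ _ => 0) fun j => ⟨zero_le_one, norm_QPos (hB j) (hl j) (hBl j),
      fun x y => by simp only [LinearIsometry.inner_map_map], hBg j, fun _ _ => rfl,
      fun _ _ => rfl⟩
  refine ⟨n, q, A, h, _, hA, hh, revM_one g hAg hhg hM, ?_⟩
  funext x y z u
  have h1 : ∀ j, 1 * EH (fun x y => l j * inner ℝ x y) (B j) (fun _ _ => 0) (fun _ _ => 0)
      x y z u = 3 * l j ^ 2 * unitT x y z u - skewCurv (B j) x y z u := by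
    intro j
    simp only [EH, R770.NS.knSq, skewCurv, unitT]
    ring
  simp only [herR, negT, full, plus, h1]
  ring

end Pool.Agent.U661.RZ
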