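import Pool.Agent.U661.RZ.Main
import Pool.Agent.U661.CH.Comb

/-!
# The linear term
-/

set_option autoImplicit false

namespace Pool.Agent.U661.RZ

open Finset Pool.Agent.Y195.HF Pool.Agent.W666.GB Pool.Agent.W669.HD Pool.Agent.U661.HS
open Pool.Agent.U661.RW Pool.Agent.R770.QC Pool.Agent.R770.NS
open Pool.Agent.U661.RV hiding co

variable {m : ℕ}

section ring

variable {R : Type} [CommRing R]

theorem absorb {X Y Z : R} (h : Y * Z = 0) (n : ℕ) : (X + Y) ^ n * Z = X ^ n * Z := by
  induction n with
  | zero => simp
  | succ n ih =>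
    rw [pow_succ, mul_assoc, add_mul, h, add_zero, mul_comm X Z, ← mul_assoc, ih, pow_succ]
    ring

theorem pow_card_sum {ι : Type} [DecidableEq ι] {a : ι → R} (ha : ∀ x, a x * a x = 0)
    (s : Finset ι) : (∑ x ∈ s, a x) ^ s.card = (s.card.factorial : R) * ∏ x ∈ s, a x := by
  induction s using Finset.induction with
  | empty => simp
  | insert x s hx ih =>
    have h0 : (∑ y ∈ s, a y) * ∏ y ∈ s, a y = 0 := by
      rw [Finset.sum_mul]
      refine Finset.sum_eq_zero fun y hy => ?_
      rw [← Finset.mul_prod_erase s a hy, ← mul_assoc, ha, zero_mul]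
    have h1 : (∑ y ∈ s, a y) ^ (s.card + 1) = 0 := by
      rw [pow_succ, ih, mul_assoc, mul_comm (∏ y ∈ s, a y), h0, mul_zero]
    rw [Finset.sum_insert hx, Finset.prod_insert hx, Finset.card_insert_of_notMem hx, add_comm,
      CH.sq_zero_pow (ha x), h1, Nat.add_sub_cancel, ih, Nat.factorial_succ]
    push_cast
    ring

end ring

theorem g_sum : (ff false true (idM : Mt m)) = ∑ x, sd x := by
  unfold ff sd
  refine Finset.sum_congr rfl fun i _ => ?_
  rw [Finset.sum_eq_single i]
  · simp [idM]
  · intro j _ hj
    simp [idM, Ne.symm hj]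
  · intro h
    exact absurd (Finset.mem_univ _) h

theorem sd_sd (x : Fin m × Bool) : (sd x : Zc (I2 m → ℂ)) * sd x = 0 := by
  rw [← sq]
  exact bv_sq _ _

theorem top_pair {i j : Fin m × Bool} (hij : i ≠ j) :
    Lf m (ff false true (idM : Mt m) ^ (2 * m - 2) * (sd i * sd j)) =
      ((2 * m - 2).factorial : ℂ) * (-1) ^ m := by
  classical
  have hc : ((univ.erase i).erase j : Finset (Fin m × Bool)).card = 2 * m - 2 := by
    rw [Finset.card_erase_of_mem (by simp [Ne.symm hij]), Finset.card_erase_of_mem (by simp),
      Finset.card_univ, Fintype.card_prod, Fintype.card_fin, Fintype.card_bool]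
    omega
  have h1 : (∑ x, sd x : Zc (I2 m → ℂ)) = (∑ x ∈ (univ.erase i).erase j, sd x) + (sd i + sd j) := by
    rw [← Finset.add_sum_erase univ _ (Finset.mem_univ i),
      ← Finset.add_sum_erase (univ.erase i) _ (by simp [Ne.symm hij] : j ∈ univ.erase i)]
    ring
  have h2 : (sd i + sd j : Zc (I2 m → ℂ)) * (sd i * sd j) = 0 := by
    linear_combination (sd_sd i) * sd j + (sd_sd j) * sd i
  have h3 : (∏ x ∈ (univ.erase i).erase j, sd x : Zc (I2 m → ℂ)) * (sd i * sd j) = ∏ x, sd x := by
    rw [← Finset.mul_prod_erase univ _ (Finset.mem_univ i),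
      ← Finset.mul_prod_erase (univ.erase i) _ (by simp [Ne.symm hij] : j ∈ univ.erase i)]
    ring
  rw [g_sum, h1, absorb h2, ← hc, pow_card_sum sd_sd, mul_assoc, h3, hc]
  have h4 : ((((2 * m - 2).factorial : ℕ) : Zc (I2 m → ℂ)) * ∏ x, sd x) =
      (((2 * m - 2).factorial : ℕ) : ℂ) • ∏ x, sd x := by
    rw [Algebra.smul_def, map_natCast]
  rw [h4, map_smul, Lf_apply, LF_diag, smul_eq_mul]

/-- the weights -/
noncomputable def wt (x : Fin m × Bool) (p : I2 m) : ℂ :=
  if p.1 = x then (if p.2 = true then 1 / 2 else 2) else 1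

/-- scaling of a pair of generators -/
noncomputable def scl (x : Fin m × Bool) : Ed m := LinearMap.pi fun p => wt x p • LinearMap.proj p

theorem scl_th (x y : Fin m × Bool) (s : Bool) : scl x (th m s y) = wt x (y, s) • th m s y := by
  funext p
  simp only [scl, LinearMap.pi_apply, LinearMap.smul_apply, LinearMap.proj_apply, Pi.smul_apply,
    smul_eq_mul, th]
  by_cases hp : p = (y, s)
  · rw [hp]
  · rw [Pi.single_eq_of_ne hp, mul_zero, mul_zero]

theorem scl_bv (x y z : Fin m × Bool) (s t : Bool) :
    ExteriorAlgebra.map (scl x) (zval (bv (th m s y) (th m t z))) =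
      zval ((wt x (y, s) * wt x (z, t)) • bv (th m s y) (th m t z)) := by
  rw [map_bv, scl_th, scl_th, bv_smul_left, bv_smul_right, smul_smul]

theorem scl_g (x : Fin m × Bool) : Fx (scl x) (ff false true (idM : Mt m)) := by
  unfold Fx
  rw [g_sum, map_sum, map_sum]
  refine Finset.sum_congr rfl fun y _ => ?_
  rw [sd, scl_bv]
  have h : wt x (y, false) * wt x (y, true) = 1 := by
    unfold wt
    by_cases hy : y = x <;> simp [hy]
  rw [h, one_smul]

theorem wt_zero (N : ℕ) {i j k l x : Fin m × Bool}
    (h : wt x (i, false) * wt x (j, false) * (wt x (k, true) * wt x (l, true)) ≠ 1) :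
    Lf m (ff false true (idM : Mt m) ^ N *
      (bv (th m false i) (th m false j) * bv (th m true k) (th m true l))) = 0 := by
  have e := LF_map (det_f (scl_g x)) (zval (ff false true (idM : Mt m) ^ N *
      (bv (th m false i) (th m false j) * bv (th m true k) (th m true l))))
  have h1 : ExteriorAlgebra.map (scl x) (zval (ff false true (idM : Mt m) ^ N *
      (bv (th m false i) (th m false j) * bv (th m true k) (th m true l)))) =
      zval ((wt x (i, false) * wt x (j, false) * (wt x (k, true) * wt x (l, true))) •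
        (ff false true (idM : Mt m) ^ N *
      (bv (th m false i) (th m false j) * bv (th m true k) (th m true l)))) := by
    have h2 : ExteriorAlgebra.map (scl x) (zval (ff false true (idM : Mt m))) =
        zval (ff false true (idM : Mt m)) := scl_g x
    simp only [map_mul, map_pow, h2, scl_bv, map_smul, mul_smul_comm, smul_mul_assoc, smul_smul]
    rw [mul_comm (wt x (k, true) * wt x (l, true))]
  rw [h1, map_smul, map_smul, smul_eq_mul] at e
  rw [Lf_apply]
  have h3 : (wt x (i, false) * wt x (j, false) * (wt x (k, true) * wt x (l, true)) - 1) *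
      LF m (zval (ff false true (idM : Mt m) ^ N *
      (bv (th m false i) (th m false j) * bv (th m true k) (th m true l)))) = 0 := by
    linear_combination e
  exact (mul_eq_zero.1 h3).resolve_left (sub_ne_zero.2 h)

theorem z_zero (N : ℕ) {i j k l : Fin m × Bool} (hij : i ≠ j) (h : ¬ (k = i ∧ l = j))
    (h' : ¬ (k = j ∧ l = i)) : Lf m (ff false true (idM : Mt m) ^ N *
      (bv (th m false i) (th m false j) * bv (th m true k) (th m true l))) = 0 := by
  by_cases hi : k = i ∨ l = i
  · by_cases hj : k = j ∨ l = j
    · exfalso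
      rcases hi with hi | hi <;> rcases hj with hj | hj
      · exact hij (hi.symm.trans hj)
      · exact h ⟨hi, hj⟩
      · exact h' ⟨hj, hi⟩
      · exact hij (hi.symm.trans hj)
    · push Not at hj
      refine wt_zero N (x := j) ?_
      simp only [wt, hij, hj.1, hj.2, if_true, if_false]
      norm_num
  · push Not at hi
    refine wt_zero N (x := i) ?_
    simp only [wt, Ne.symm hij, hi.1, hi.2, if_true, if_false]
    norm_num

theorem z_pair {i j : Fin m × Bool} : (bv (th m false i) (th m false j) *
    bv (th m true i) (th m true j) : Zc (I2 m → ℂ)) = -(sd i * sd j) := bv_exch _ _ _ _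

/-- The linear term is the scalar curvature. -/
theorem lin_term (C : C4 m) :
    Lf m (ff false true (idM : Mt m) ^ (2 * m - 2) * eL C) =
      -(((2 * m - 2).factorial : ℂ) * (-1) ^ m) * ∑ i, ∑ j, (C i j i j - C i j j i) := by
  classical
  set N := 2 * m - 2 with hN
  set c : ℂ := ((2 * m - 2).factorial : ℂ) * (-1) ^ m with hc
  have hz : ∀ i j k l, Lf m (ff false true (idM : Mt m) ^ N * (C i j k l •
      (bv (th m false i) (th m false j) * bv (th m true k) (th m true l)))) =
      (if k = i ∧ l = j then (if i = j then 0 else - c * C i j i j) else 0) +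
        (if k = j ∧ l = i then (if i = j then 0 else c * C i j j i) else 0) := by
    intro i j k l
    rw [mul_smul_comm, map_smul, smul_eq_mul]
    by_cases hij : i = j
    · rw [hij, bv_self, zero_mul, mul_zero, map_zero, mul_zero]
      simp
    · by_cases h : k = i ∧ l = j
      · have h' : ¬ (k = j ∧ l = i) := fun h' => hij (h.1.symm.trans h'.1)
        rw [if_pos h, if_neg h', if_neg hij, h.1, h.2, z_pair, mul_neg, map_neg, top_pair hij]
        ring
      · by_cases h' : k = j ∧ l = i
        · rw [if_neg h, if_pos h', if_neg hij, h'.1, h'.2, bv_swap (th m true i) (th m true j),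
            mul_neg, z_pair, neg_neg, top_pair hij]
          ring
        · rw [if_neg h, if_neg h', z_zero N hij h h', mul_zero, add_zero]
  have h1 : Lf m (ff false true (idM : Mt m) ^ N * eL C) = ∑ i, ∑ j, ∑ k, ∑ l,
      Lf m (ff false true (idM : Mt m) ^ N * (C i j k l •
      (bv (th m false i) (th m false j) * bv (th m true k) (th m true l)))) := by
    unfold eL el
    simp only [Finset.mul_sum, map_sum]
  rw [h1, Finset.mul_sum]
  refine Finset.sum_congr rfl fun i _ => ?_
  rw [Finset.mul_sum]
  refine Finset.sum_congr rfl fun j _ => ?_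
  simp only [hz, Finset.sum_add_distrib]
  have s1 : ∀ (a b : Fin m × Bool) (t : ℂ), ∑ k : Fin m × Bool, ∑ l : Fin m × Bool,
      (if k = a ∧ l = b then t else 0) = t := by
    intro a b t
    rw [Finset.sum_eq_single a]
    · simp
    · intro k _ hk
      simp [hk]
    · intro h
      exact absurd (Finset.mem_univ _) h
  rw [s1, s1]
  by_cases hij : i = j
  · simp [hij]
  · rw [if_neg hij, if_neg hij]
    ring

end Pool.Agent.U661.RZ
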