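import Pool.Agent.U661.RZ.Moore

/-!
# The comparison theorem with Moore products
-/

set_option autoImplicit false

namespace Pool.Agent.U661.RZ

open Finset Pool.Agent.Y195.HF Pool.Agent.W666.GB Pool.Agent.W669.HD Pool.Agent.U661.HS
open Pool.Agent.U661.RW Pool.Agent.R770.QC
open Pool.Agent.U661.RV hiding co

variable {m : ℕ}

section alg

variable {κ : Type} [Fintype κ] {ι : Type} [Fintype ι]

/-- `δ uT + D` -/
noncomputable def dD (δ : ℝ) (D : T4 m) : T4 m := fun i j k l => δ * (uT : T4 m) i j k l + D i j k l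

theorem eL_dD (δ : ℝ) (D : T4 m) :
    eL (cx (dD δ D)) = (-2 * δ : ℝ) • ff false true (idM : Mt m) ^ 2 + eL (cx D) := by
  have h1 : (cx (dD δ D) : C4 m) = fun i j k l => (fun i j k l => (δ : ℂ) *
      cx (uT : T4 m) i j k l : C4 m) i j k l + cx D i j k l := by
    funext i j k l
    simp only [cx, dD]
    push_cast
    rfl
  rw [h1, eL_add, eL_smul, eL_unit, smul_smul, ← Complex.coe_smul]
  congr 2
  push_cast
  ring

/-- Monotonicity from `δ uT` to `δ uT + D`. -/
theorem gm_monoK {D : T4 m} {f : Ed m} (hf : Fx f (ff false true (idM : Mt m)))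
    (hD : Kb f (eL (cx D))) {δ : ℝ} (hδ : 0 ≤ δ) :
    gm (fun _ : Fin m => (fun i j k l => δ * (uT : T4 m) i j k l : T4 m)) ≤
      gm (fun _ : Fin m => dD δ D) := by
  set u : Zc (I2 m → ℂ) := (-2 * δ : ℝ) • ff false true (idM : Mt m) ^ 2 with hu
  have hu1 : u ∈ Kc f 1 := by
    have h2 := Kc_gen (f := f) (n := 1) (r := 2 * δ) (by positivity) (L := [oneq m, oneq m])
      (fun X hX => by
        have : X = oneq m := by simpa using hX
        rw [this]
        exact ⟨pdq_one, by rw [xq_one]; exact hf⟩) rfl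
    convert h2 using 1
    rw [prq, List.map_cons, List.map_cons, List.map_nil, List.prod_cons, List.prod_cons,
      List.prod_nil, mul_one, xq_one, Complex.coe_smul, hu, sq]
    congr 1
    ring
  have e1 : eL (cx (fun i j k l => δ * (uT : T4 m) i j k l : T4 m)) = u := by
    have h := eL_dD δ (fun _ _ _ _ => 0 : T4 m)
    have h2 : (dD δ (fun _ _ _ _ => 0 : T4 m)) = fun i j k l => δ * (uT : T4 m) i j k l := by
      funext i j k l
      simp only [dD, add_zero]
    have h3 : eL (cx (fun _ _ _ _ => 0 : T4 m)) = 0 := by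
      have h4 := eL_smul (m := m) 0 (cx (fun _ _ _ _ => 0 : T4 m))
      rw [zero_smul] at h4
      rw [← h4]
      congr 1
      funext i j k l
      simp [cx]
    rw [h2, h3, add_zero] at h
    exact h
  have hx0 : Rx f (xq (0 : Qd m)) := by
    unfold Rx
    rw [xq_zero, neg_zero, map_zero, map_zero]
  have key : ∀ a c : ℕ, a + c = m → 0 ≤ LR m (u ^ a * eL (cx D) ^ c) := by
    intro a c hac
    have h1 := Kb.pos (f := f) hq_zero hf hx0 (N := 0) (k := a) (n := c) (by omega) hu1 hD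
    rwa [mul_zero, pow_zero, one_mul] at h1
  rw [gm_LR, gm_LR, eL_dD, e1, ← hu, add_pow, map_sum, Finset.sum_range_succ]
  have h1 : u ^ m * eL (cx D) ^ (m - m) * ((m.choose m : ℕ) : Zc (I2 m → ℂ)) = u ^ m := by
    rw [Nat.sub_self, pow_zero, Nat.choose_self, Nat.cast_one, mul_one, mul_one]
  rw [h1]
  have h2 : 0 ≤ ∑ k ∈ Finset.range m, LR m (u ^ k * eL (cx D) ^ (m - k) *
      ((m.choose k : ℕ) : Zc (I2 m → ℂ))) := by
    refine Finset.sum_nonneg fun k hk => ?_
    rw [Finset.mem_range] at hk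
    have h3 := key k (m - k) (by omega)
    have e2 : u ^ k * eL (cx D) ^ (m - k) * ((m.choose k : ℕ) : Zc (I2 m → ℂ)) =
        ((m.choose k : ℕ) : ℝ) • (u ^ k * eL (cx D) ^ (m - k)) := by
      simp only [Algebra.smul_def, map_natCast]
      ring
    rw [e2, map_smul, smul_eq_mul]
    positivity
  linarith

/-- The algebraic comparison theorem. -/
theorem gm_revK {D : T4 m} {A : κ → Fin m × Bool → Fin m × Bool → ℝ}
    {H : ι → Fin m × Bool → Fin m × Bool → ℝ}
    (hA : ∀ a i j, A a j i = - A a i j) (hH : ∀ a i j, H a i j = H a j i)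
    (h : RevK A H (eL (cx D))) {δ : ℝ} (hδ : 0 ≤ δ) :
    gm (fun _ : Fin m => dD δ D) ≤ gm (fun _ : Fin m =>
      (fun i j k l => dD δ D i j k l + ∑ a, scR (A a) i j k l - ∑ a, sqM (H a) i j k l : T4 m)) := by
  set Z : Zc (I2 m → ℂ) := ∑ a, qi (cm (A a)) + ∑ a, xs (H a) ^ 2 with hZ
  have key : ∀ a c : ℕ, a + c = m →
      0 ≤ LR m (eL (cx (dD δ D)) ^ a * ((2 : ℂ) • Z) ^ c) := by
    intro a c hac
    have h1 := revK_pos hA hH h hδ (N := c) (n := a) (by omega)
    rw [← hZ, ← eL_dD] at h1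
    have e1 : eL (cx (dD δ D)) ^ a * ((2 : ℂ) • Z) ^ c =
        ((2 : ℝ) ^ c) • (Z ^ c * eL (cx (dD δ D)) ^ a) := by
      rw [smul_pow, ← Complex.coe_smul]
      push_cast
      simp only [Algebra.smul_def]
      ring
    rw [e1, map_smul, smul_eq_mul]
    positivity
  have hsum : eL (cx (fun i j k l => dD δ D i j k l + ∑ a, scR (A a) i j k l -
      ∑ a, sqM (H a) i j k l : T4 m)) = eL (cx (dD δ D)) + (2 : ℂ) • Z := by
    have e0 : (cx (fun i j k l => dD δ D i j k l + ∑ a, scR (A a) i j k l -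
      ∑ a, sqM (H a) i j k l : T4 m) : C4 m) = fun i j k l => (fun i j k l => cx (dD δ D) i j k l +
        (fun i j k l => ∑ a : κ, (fun a => (cx (scR (A a)) : C4 m)) a i j k l : C4 m) i j k l :
          C4 m) i j k l +
        (fun i j k l => (-1 : ℂ) * (fun i j k l => ∑ a : ι, (fun a => (cx (sqM (H a)) : C4 m))
          a i j k l : C4 m) i j k l : C4 m) i j k l := by
      funext i j k l
      simp only [cx]
      push_cast
      ring
    rw [e0, eL_add, eL_add, eL_smul, eL_sum, eL_sum, hZ, smul_add, Finset.smul_sum,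
      Finset.smul_sum, Finset.smul_sum, ← add_assoc]
    congr 1
    · congr 1
      exact Finset.sum_congr rfl fun a _ => eL_scR (A a)
    · refine Finset.sum_congr rfl fun a _ => ?_
      rw [eL_sqM, smul_smul]
      norm_num
  rw [gm_LR, gm_LR, hsum, add_pow, map_sum, Finset.sum_range_succ]
  have h1 : eL (cx (dD δ D)) ^ m * ((2 : ℂ) • Z) ^ (m - m) *
      ((m.choose m : ℕ) : Zc (I2 m → ℂ)) = eL (cx (dD δ D)) ^ m := by
    rw [Nat.sub_self, pow_zero, Nat.choose_self, Nat.cast_one, mul_one, mul_one]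
  rw [h1]
  have h2 : 0 ≤ ∑ k ∈ Finset.range m, LR m (eL (cx (dD δ D)) ^ k *
      ((2 : ℂ) • Z) ^ (m - k) * ((m.choose k : ℕ) : Zc (I2 m → ℂ))) := by
    refine Finset.sum_nonneg fun k hk => ?_
    rw [Finset.mem_range] at hk
    have h3 := key k (m - k) (by omega)
    have e2 : eL (cx (dD δ D)) ^ k * ((2 : ℂ) • Z) ^ (m - k) *
        ((m.choose k : ℕ) : Zc (I2 m → ℂ)) =
        ((m.choose k : ℕ) : ℝ) • (eL (cx (dD δ D)) ^ k * ((2 : ℂ) • Z) ^ (m - k)) := by
      simp only [Algebra.smul_def, map_natCast]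
      ring
    rw [e2, map_smul, smul_eq_mul]
    positivity
  linarith

end alg

section forms

variable {V : Type} [NormedAddCommGroup V] [InnerProductSpace ℝ V]

omit [NormedAddCommGroup V] [InnerProductSpace ℝ V] in
/-- `D` is a sum of Moore products of positive semidefinite quaternionic hermitian forms which are
preserved by `g`. -/
def MCone (g : V → V) (D : V → V → V → V → ℝ) : Prop :=
  ∃ (r : ℕ) (T T' : Fin r → Fin 4 → V → V → ℝ),
    (∀ j, PQ g (T j 0) (T j 1) (T j 2) (T j 3) ∧ PQ g (T' j 0) (T' j 1) (T' j 2) (T' j 3)) ∧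
    ∀ x y z w, D x y z w = ∑ j, moore (T j) (T' j) x y z w

omit [NormedAddCommGroup V] [InnerProductSpace ℝ V] in
/-- `D` is a sum of products of positive semidefinite symmetric forms which are preserved by `g`. -/
def SCone (g : V → V) (D : V → V → V → V → ℝ) : Prop :=
  ∃ (r : ℕ) (S S' : Fin r → V → V → ℝ),
    (∀ j, (Psd (S j) ∧ Psd (S' j)) ∧ Pres g (S j) ∧ Pres g (S' j)) ∧
    ∀ x y z w, D x y z w = ∑ j, kn (S j) (S' j) x y z w

/-- For every real combination `H` of the symmetric forms `h b` and any three real combinations of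
the skew forms `A a` there is a linear isometry `g` of the space which reverses `H`, and which
either reverses the three combinations, and then `D` is a sum of Moore products of forms preserved
by `g`, or preserves them, and then they are linearly dependent, and `D` is a sum of products of
symmetric forms preserved by `g`. -/
def RevM {n q : ℕ} (A : Fin n → V → V → ℝ) (h : Fin q → V → V → ℝ)
    (D : V → V → V → V → ℝ) : Prop :=
  ∀ (c : Fin q → ℝ) (p : Fin 3 → Fin n → ℝ), ∃ g : V →ₗᵢ[ℝ] V, Revs g (lcf c h) ∧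
    (((∀ i, Revs g (lcf (p i) A)) ∧ MCone g D) ∨
      ((∀ i, Pres g (lcf (p i) A)) ∧
        (∃ v : Fin 3 → ℝ, v ≠ 0 ∧ ∀ x y, ∑ i, v i * lcf (p i) A x y = 0) ∧ SCone g D))

/-- `δ unitT + D` -/
noncomputable def plus (δ : ℝ) (D : V → V → V → V → ℝ) (x y z w : V) : ℝ :=
  δ * unitT x y z w + D x y z w

theorem MCone.kb (e : OrthonormalBasis (Fin m × Bool) ℝ V) (g : V →ₗᵢ[ℝ] V)
    {D : V → V → V → V → ℝ} (h : MCone g D) : Kb (lin (gmat e g)) (eL (cx (cp e D))) := by
  obtain ⟨r, T, T', hT, hD⟩ := h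
  have e1 : (cx (cp e D) : C4 m) = fun i j k l => ∑ a : Fin r,
      (fun a => (cx (cp e (moore (T a) (T' a))) : C4 m)) a i j k l := by
    funext i j k l
    simp only [cx, cp, hD]
    push_cast
    rfl
  rw [e1, eL_sum]
  exact Kb.sum _ fun a _ => Kb_moore e g (hT a).1 (hT a).2

theorem zero_skew' : SkewForm (fun _ _ : V => (0 : ℝ)) :=
  ⟨fun _ _ _ => by simp, fun _ _ _ => by simp, fun _ _ => by simp⟩

theorem psd_qpos {S : V → V → ℝ} (h : Psd S) :
    QPos S (fun _ _ => 0) (fun _ _ => 0) (fun _ _ => 0) where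
  symm := ⟨h.1.add, h.1.smul, h.1.symm⟩
  skew₁ := zero_skew'
  skew₂ := zero_skew'
  skew₃ := zero_skew'
  pos x₀ x₁ x₂ x₃ := by
    have h0 := h.2 x₀
    have h1 := h.2 x₁
    have h2 := h.2 x₂
    have h3 := h.2 x₃
    simp only [add_zero, mul_zero]
    positivity

omit [NormedAddCommGroup V] [InnerProductSpace ℝ V] in
theorem xq_sym (e : Fin m × Bool → V) (S : V → V → ℝ) :
    xq (qd e S (fun _ _ => 0) (fun _ _ => 0) (fun _ _ => 0)) = xs fun i j => S (e i) (e j) := by
  have h1 : qd e S (fun _ _ => 0) (fun _ _ => 0) (fun _ _ => 0) 0 = fun i j => S (e i) (e j) := rfl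
  have h2 : qd e S (fun _ _ => 0) (fun _ _ => 0) (fun _ _ => 0) 1 = 0 := rfl
  have h3 : qd e S (fun _ _ => 0) (fun _ _ => 0) (fun _ _ => 0) 2 = 0 := by
    funext i j
    show - (0 : ℝ) = 0
    rw [neg_zero]
  have h4 : qd e S (fun _ _ => 0) (fun _ _ => 0) (fun _ _ => 0) 3 = 0 := rfl
  rw [xq, h1, h2, h3, h4, cm_zero, WW_zero, zero_add]

theorem SCone.kb (e : OrthonormalBasis (Fin m × Bool) ℝ V) {g : V →ₗᵢ[ℝ] V} {f : Ed m}
    (hf : Fx f (ff false true (idM : Mt m)))
    (hf' : ∀ S : Fin m × Bool → Fin m × Bool → ℝ, (∀ i j, S i j = S j i) →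
      trf (gmat e g) (cm S) = cm S → Fx f (xs S))
    {D : V → V → V → V → ℝ} (h : SCone g D) : Kb f (eL (cx (cp e D))) := by
  obtain ⟨r, S, S', hS, hD⟩ := h
  have e1 : (cx (cp e D) : C4 m) = fun i j k l => ∑ a : Fin r, (fun a => (cx
      (knM (fun i j => S a (e i) (e j)) (fun i j => S' a (e i) (e j))) : C4 m)) a i j k l := by
    funext i j k l
    simp only [cx, cp, hD, kn, knM]
    push_cast
    rfl
  rw [e1, eL_sum]
  refine Kb.sum _ fun a _ => ?_
  have f1 : Fx f (xs fun i j => S a (e i) (e j)) :=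
    hf' _ (fun i k => ((hS a).1.1.1.symm _ _).symm) (gmat_fix e g (hS a).1.1.1.bl (hS a).2.1)
  have f2 : Fx f (xs fun i j => S' a (e i) (e j)) :=
    hf' _ (fun i k => ((hS a).1.2.1.symm _ _).symm) (gmat_fix e g (hS a).1.2.1.bl (hS a).2.2)
  have h1 := Kb.two hf (r := 4) (by norm_num) (fun ε hε => qd_pd e (psd_qpos (hS a).1.1) hε)
    (fun ε hε => qd_pd e (psd_qpos (hS a).1.2) hε) (by rwa [xq_sym]) (by rwa [xq_sym])
  rw [xq_sym, xq_sym] at h1
  convert h1 using 1
  rw [eL_kn, ← Complex.coe_smul]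
  push_cast
  rfl

theorem RevM.revK (e : OrthonormalBasis (Fin m × Bool) ℝ V) {n q : ℕ} {A : Fin n → V → V → ℝ}
    {h : Fin q → V → V → ℝ} {D : V → V → V → V → ℝ} (hA : ∀ a, SkewForm (A a))
    (hh : ∀ b, SymForm (h b)) (hr : RevM A h D) :
    RevK (fun a i j => A a (e i) (e j)) (fun b i j => h b (e i) (e j)) (eL (cx (cp e D))) := by
  intro p c
  have hrs : ∀ i, rs (p i) (fun a i j => A a (e i) (e j)) =
      fun k l => lcf (p i) A (e k) (e l) := fun i => rs_lcf e A (p i)
  rw [hrs 0, hrs 1, hrs 2, rs_lcf e h c]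
  obtain ⟨g, h1, h2⟩ := hr c p
  have hH := gmat_neg e g (lcf_sym hh c).bl h1
  rcases h2 with ⟨h2, hD⟩ | ⟨h2, hv, hD⟩
  · have h3 := fun i => gmat_neg e g (skew_bl (lcf_skew hA (p i))) (h2 i)
    exact ⟨lin (gmat e g), lin_ff_fx _ _ (gmat_id e g),
      (lin_WW_rx (h3 0) (h3 1) (h3 2)).add (lin_ff_rx _ _ hH), hD.kb e g⟩
  · obtain ⟨f, hf, hf', hf''⟩ := rev_exists (G := gmat e g) (gmat_id e g)
      (P := fun i => cm fun k l => lcf (p i) A (e k) (e l))
      (H := fun k l => lcf c h (e k) (e l))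
      (fun i => ⟨fun k l => by simp only [cm, Complex.conj_ofReal], fun k l => by
        simp only [cm, (lcf_skew hA (p i)).anti (e k) (e l), Complex.ofReal_neg]⟩) hH
      (Or.inr (by
        obtain ⟨v, hv, h4⟩ := hv
        refine ⟨fun i => gmat_fix e g (skew_bl (lcf_skew hA _)) (h2 i), v, hv, ?_⟩
        funext k l
        rw [Finset.sum_apply, Finset.sum_apply]
        simp only [Pi.smul_apply, smul_eq_mul, cm, Pi.zero_apply]
        have := h4 (e k) (e l)
        exact_mod_cast congrArg (fun t : ℝ => (t : ℂ)) this))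
      (fun i j => (lcf_sym hh c).symm _ _)
    exact ⟨f, hf, hf', hD.kb e hf hf''⟩

theorem cp_plus (e : OrthonormalBasis (Fin m × Bool) ℝ V) (δ : ℝ) (D : V → V → V → V → ℝ) :
    (cp e (plus δ D) : T4 m) = dD δ (cp e D) := by
  funext i j k l
  simp only [cp, plus, dD, uT, cp_unit]

/-- The comparison theorem. -/
theorem revM_main (e : OrthonormalBasis (Fin m × Bool) ℝ V) {δ : ℝ} (hδ : 0 ≤ δ)
    {n q : ℕ} {A : Fin n → V → V → ℝ} {h : Fin q → V → V → ℝ} {D : V → V → V → V → ℝ}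
    (hA : ∀ a, SkewForm (A a)) (hh : ∀ b, SymForm (h b)) (hr : RevM A h D) :
    roundGB m δ ≤ gbc e (plus δ D) ∧ gbc e (plus δ D) ≤ gbc e (full (plus δ D) A h) := by
  have hK := hr.revK e hA hh
  have hπ := Real.pi_pos
  have hc : 0 < 1 / ((8 * Real.pi) ^ m * (m.factorial : ℝ)) := by positivity
  constructor
  · have h0 : roundGB m δ = gbc e (fun x y z w => δ * unitT x y z w) := by
      rw [← gbc_unit e, RV.gbc_neg]
    rw [h0, gbc_gm, gbc_gm, cp_plus]
    refine mul_le_mul_of_nonneg_left ?_ hc.le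
    obtain ⟨f, hf, -, hD⟩ := hK 0 0
    refine (le_of_eq ?_).trans (gm_monoK hf hD hδ)
    congr 1
    funext _ i j k l
    simp only [cp, uT, cp_unit]
  · rw [gbc_gm, gbc_gm, cp_plus]
    refine mul_le_mul_of_nonneg_left ?_ hc.le
    refine (gm_revK (fun a i j => (hA a).anti _ _) (fun b i j => (hh b).symm _ _) hK hδ).trans
      (le_of_eq ?_)
    congr 1
    funext _ i j k l
    rw [← cp_plus]
    rfl

/-- The comparison theorem for `-R`. -/
theorem revM_neg (e : OrthonormalBasis (Fin m × Bool) ℝ V) {δ : ℝ} (hδ : 0 ≤ δ)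
    {n q : ℕ} {A : Fin n → V → V → ℝ} {h : Fin q → V → V → ℝ} {D : V → V → V → V → ℝ}
    (hA : ∀ a, SkewForm (A a)) (hh : ∀ b, SymForm (h b)) (hr : RevM A h D) :
    roundGB m δ ≤ (-1) ^ m * gbc e (negT (plus δ D)) ∧
      (-1) ^ m * gbc e (negT (plus δ D)) ≤ (-1) ^ m * gbc e (negT (full (plus δ D) A h)) := by
  rw [RV.gbc_neg, RV.gbc_neg]
  exact revM_main e hδ hA hh hr

end forms

end Pool.Agent.U661.RZ
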