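import Pool.Agent.U661.RZ.Nzq
import Pool.Agent.U661.RW.Fam

/-!
# Mixed products of quaternionic hermitian forms
-/

set_option autoImplicit false

namespace Pool.Agent.U661.RZ

open Finset Pool.Agent.Y195.HF Pool.Agent.U661.HS Pool.Agent.U661.RV Pool.Agent.U661.RW

variable {m : ℕ}

/-- the unit -/
def oneq (m : ℕ) : Qd m := ![one' m, 0, 0, 0]

theorem cm_zero : (cm (0 : Fin m × Bool → Fin m × Bool → ℝ) : Mt m) = 0 := by
  funext i j
  simp [cm]

theorem xq_one : xq (oneq m) = ff false true (idM : Mt m) := by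
  have h1 : oneq m 0 = one' m := rfl
  have h2 : oneq m 1 = 0 := rfl
  have h3 : oneq m 2 = 0 := rfl
  have h4 : oneq m 3 = 0 := rfl
  rw [xq, h1, h2, h3, h4, cm_zero, WW_zero, zero_add, xs_one]

theorem hq_one : Hq (oneq m) where
  s i j := pd_one.1 i j
  k1 i j := by
    have h2 : oneq m 1 = 0 := rfl
    rw [h2]; simp
  k2 i j := by
    have h2 : oneq m 2 = 0 := rfl
    rw [h2]; simp
  k3 i j := by
    have h2 : oneq m 3 = 0 := rfl
    rw [h2]; simp

theorem hq_zero : Hq (0 : Qd m) where
  s i j := by simp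
  k1 i j := by simp
  k2 i j := by simp
  k3 i j := by simp

theorem xq_zero : xq (0 : Qd m) = 0 := by
  have h := xq_smul (0 : ℝ) (0 : Qd m)
  simpa using h

theorem pdq_one : PDq (oneq m) where
  hq := hq_one
  pos a b hab := by
    have h1 : oneq m 0 = one' m := rfl
    have h2 : oneq m 1 = 0 := rfl
    have h3 : oneq m 2 = 0 := rfl
    have h4 : oneq m 3 = 0 := rfl
    have e : XT (oneq m) a b = ∑ i, ((starRingEnd ℂ) (b i) * b i + (starRingEnd ℂ) (a i) * a i) := by
      unfold XT XX
      refine Finset.sum_congr rfl fun i _ => ?_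
      simp only [Cq, Dq, Mq, h1, h2, h3, h4, cm_zero, smul_zero, add_zero, sub_zero, cm_one,
        Pi.zero_apply, zero_mul, Finset.sum_const_zero, mul_zero, zero_add, idM]
      simp
    have e2 : (XT (oneq m) a b).re = ∑ i, (Complex.normSq (b i) + Complex.normSq (a i)) := by
      rw [e, Complex.re_sum]
      refine Finset.sum_congr rfl fun i _ => ?_
      rw [← Complex.normSq_eq_conj_mul_self, ← Complex.normSq_eq_conj_mul_self, ← Complex.ofReal_add,
        Complex.ofReal_re]
    rw [e2]
    have hne : ∃ i, a i ≠ 0 ∨ b i ≠ 0 := by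
      by_contra hcon
      push Not at hcon
      exact hab ⟨funext fun i => (hcon i).1, funext fun i => (hcon i).2⟩
    obtain ⟨i, hi⟩ := hne
    refine Finset.sum_pos' (fun j _ => add_nonneg (Complex.normSq_nonneg _)
      (Complex.normSq_nonneg _)) ⟨i, Finset.mem_univ i, ?_⟩
    rcases hi with hi | hi
    · exact add_pos_of_nonneg_of_pos (Complex.normSq_nonneg _) (Complex.normSq_pos.2 hi)
    · exact add_pos_of_pos_of_nonneg (Complex.normSq_pos.2 hi) (Complex.normSq_nonneg _)

/-- products of the elements -/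
noncomputable def prq (L : List (Qd m)) : Zc (I2 m → ℂ) := (L.map xq).prod

/-- Mixed products do not vanish in the tube. -/
theorem mixq_ne (L : List (Qd m)) : (∀ S ∈ L, PDq S) →
    ∀ n : ℕ, L.length + n = 2 * m → ∀ W T : Qd m, Hq W → PDq T →
      Lf m ((xq W + Complex.I • xq T) ^ n * prq L) ≠ 0 := by
  induction L with
  | nil =>
    intro _ n hn W T hW hT
    have h1 : n = 2 * m := by simpa using hn
    rw [h1, prq, List.map_nil, List.prod_nil, mul_one, Lf_apply]
    exact xq_ne hW hT
  | cons S₁ L ih =>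
    intro hL n hn W T hW hT
    have hS₁ : PDq S₁ := hL S₁ List.mem_cons_self
    have hn' : L.length + (n + 1) = 2 * m := by
      rw [← hn, List.length_cons]
      ring
    have ih' := ih (fun S hS => hL S (List.mem_cons_of_mem _ hS)) (n + 1) hn'
    set y := xq W + Complex.I • xq T with hy
    have hlead : Lf m (xq S₁ ^ (n + 1) * prq L) ≠ 0 := by
      have h1 := ih' 0 S₁ hq_zero hS₁
      rw [xq_zero, zero_add, smul_pow, smul_mul_assoc, map_smul] at h1
      intro h2
      exact h1 (by rw [h2, smul_zero])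
    have hne : ∀ s : ℂ, 0 ≤ s.im → (lp (Lf m) y (xq S₁) (prq L) (n + 1)).eval s ≠ 0 := by
      intro s hs
      rw [lp_eval]
      have h1 : y + s • xq S₁ = xq (W + s.re • S₁) + Complex.I • xq (T + s.im • S₁) := by
        rw [hy, xq_add, xq_add, xq_smul, xq_smul]
        conv_lhs => rw [← Complex.re_add_im s]
        module
      rw [h1]
      exact ih' _ _ (hW.add (hS₁.hq.smul _)) (hT.add hS₁ hs)
    have h2 := half_plane (by rw [lp_deg _ _ _ _ _ hlead]; omega) hne
    rw [← Polynomial.coeff_zero_eq_eval_zero, Polynomial.coeff_derivative,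
      lp_coeff _ _ _ _ _ (by omega)] at h2
    intro h0
    apply h2
    have h3 : y ^ (n + 1 - (0 + 1)) * xq S₁ ^ (0 + 1) * prq L = y ^ n * prq (S₁ :: L) := by
      rw [prq, prq, List.map_cons, List.prod_cons, zero_add, pow_one, Nat.add_sub_cancel]
      ring
    rw [h3, h0]
    simp

/-- real and complex multiples of the metric -/
theorem mixq_one {L : List (Qd m)} (hL : ∀ S ∈ L, PDq S) {n : ℕ}
    (hn : L.length + n = 2 * m) {W : Qd m} (hW : Hq W) {s : ℂ} (hs : s.im ≠ 0) :
    Lf m ((xq W + s • ff false true (idM : Mt m)) ^ n * prq L) ≠ 0 := by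
  have key : ∀ {W : Qd m}, Hq W → ∀ {s : ℂ}, 0 < s.im →
      Lf m ((xq W + s • ff false true (idM : Mt m)) ^ n * prq L) ≠ 0 := by
    intro W hW s hs
    have h1 : xq W + s • ff false true (idM : Mt m) =
        xq (W + s.re • oneq m) + Complex.I • xq (s.im • oneq m) := by
      rw [xq_add, xq_smul, xq_smul, xq_one]
      conv_lhs => rw [← Complex.re_add_im s]
      module
    rw [h1]
    exact mixq_ne L hL n hn _ _ (hW.add (hq_one.smul _)) (pdq_one.smul hs)
  rcases lt_or_gt_of_ne hs with h | h
  · have h1 := key (hW.smul (-1)) (s := -s) (by simpa using h)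
    have h2 : xq ((-1 : ℝ) • W) + (-s) • ff false true (idM : Mt m) =
        -(xq W + s • ff false true (idM : Mt m)) := by
      rw [xq_smul]
      push_cast
      module
    rw [h2, neg_pow] at h1
    intro h0
    apply h1
    rw [mul_assoc]
    have h3 : (-1 : Zc (I2 m → ℂ)) ^ n = algebraMap ℂ _ ((-1 : ℂ) ^ n) := by
      rw [map_pow, map_neg, map_one]
    rw [h3, ← Algebra.smul_def, map_smul, h0, smul_zero]
  · exact key hW h

/-- Mixed products of positive definite forms. -/
theorem mixq_pos (L : List (Qd m)) : (∀ S ∈ L, PDq S) →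
    ∀ n : ℕ, L.length + n = 2 * m → ∃ r : ℝ, 0 < r ∧
      Lf m (ff false true (idM : Mt m) ^ n * prq L) =
        (r : ℂ) * Lf m (ff false true (idM : Mt m) ^ (2 * m)) := by
  induction L with
  | nil =>
    intro _ n hn
    refine ⟨1, one_pos, ?_⟩
    have h1 : n = 2 * m := by simpa using hn
    rw [h1, prq, List.map_nil, List.prod_nil, mul_one, Complex.ofReal_one, one_mul]
  | cons S L ih =>
    intro hL n hn
    have hS : PDq S := hL S List.mem_cons_self
    have hL' : ∀ S ∈ L, PDq S := fun S hS => hL S (List.mem_cons_of_mem _ hS)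
    have hn' : L.length + (n + 1) = 2 * m := by
      rw [← hn, List.length_cons]
      ring
    obtain ⟨r, hr, hr'⟩ := ih hL' (n + 1) hn'
    set g : Zc (I2 m → ℂ) := ff false true (idM : Mt m) with hg
    have hL0 : Lf m (g ^ (2 * m)) ≠ 0 := LF_g_ne
    set b := Lf m (g ^ (n + 1) * prq L) with hb
    have hb0 : b ≠ 0 := by
      rw [hr']
      exact mul_ne_zero (by exact_mod_cast hr.ne') hL0
    set a := Lf m (g ^ n * prq (S :: L)) with ha
    have hlin : ∀ s : ℂ, a + s * b = Lf m (g ^ n * ((xq S + s • g) * prq L)) := by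
      intro s
      have h1 : g ^ n * ((xq S + s • g) * prq L) =
          g ^ n * prq (S :: L) + s • (g ^ (n + 1) * prq L) := by
        rw [prq, prq, List.map_cons, List.prod_cons, pow_succ]
        simp only [Algebra.smul_def]
        ring
      rw [h1, map_add, map_smul, smul_eq_mul]
    have hrep : prq (List.replicate n (oneq m) ++ L) = g ^ n * prq L := by
      rw [prq, prq, List.map_append, List.prod_append, List.map_replicate, List.prod_replicate,
        xq_one]
    have him : ∀ s : ℂ, s.im ≠ 0 → a + s * b ≠ 0 := by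
      intro s hs
      rw [hlin]
      have h1 := mixq_one (L := List.replicate n (oneq m) ++ L) (n := 1) (fun S hS => by
        rcases List.mem_append.1 hS with h | h
        · rw [List.eq_of_mem_replicate h]
          exact pdq_one
        · exact hL' S h) (by
        rw [List.length_append, List.length_replicate]
        omega) hS.hq hs
      rw [pow_one, hrep] at h1
      have h2 : g ^ n * ((xq S + s • g) * prq L) = (xq S + s • g) * (g ^ n * prq L) := by ring
      rw [h2]
      exact h1
    have hre : ∀ s : ℝ, 0 ≤ s → a + (s : ℂ) * b ≠ 0 := by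
      intro s hs
      rw [hlin]
      have h1 := mixq_ne ((S + s • oneq m) :: L) (fun S' hS' => by
        rcases List.mem_cons.1 hS' with h | h
        · rw [h]
          exact hS.add pdq_one hs
        · exact hL' S' h) n (by rw [← hn, List.length_cons, List.length_cons])
        0 (oneq m) hq_zero pdq_one
      rw [xq_zero, zero_add, smul_pow, smul_mul_assoc, map_smul] at h1
      intro h2
      apply h1
      have h3 : xq (oneq m) ^ n * prq ((S + s • oneq m) :: L) =
          g ^ n * ((xq S + (s : ℂ) • g) * prq L) := by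
        rw [prq, prq, List.map_cons, List.prod_cons, xq_add, xq_smul, xq_one]
      rw [h3, h2, smul_zero]
    -- the root
    have hroot : a + (-(a / b)) * b = 0 := by
      field_simp
      ring
    have h1 : (-(a / b)).im = 0 := by
      by_contra hcon
      exact him _ hcon hroot
    have h2 : (a / b).im = 0 := by
      rw [Complex.neg_im] at h1
      linarith
    have h3 : a / b = ((a / b).re : ℂ) := Complex.ext rfl (by rw [h2, Complex.ofReal_im])
    have h4 : 0 < (a / b).re := by
      by_contra hcon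
      push Not at hcon
      have h5 := hre (-(a / b).re) (by linarith)
      apply h5
      rw [Complex.ofReal_neg, ← h3]
      exact hroot
    refine ⟨(a / b).re * r, mul_pos h4 hr, ?_⟩
    rw [Complex.ofReal_mul, mul_assoc, ← hr', ← h3]
    field_simp

/-- Positive definite quadruples which are preserved by `f`. -/
def GLq (f : Ed m) (L : List (Qd m)) : Prop := ∀ S ∈ L, PDq S ∧ Fx f (xq S)

theorem f_prq {f : Ed m} {L : List (Qd m)} (hL : GLq f L) : Fx f (prq L) := by
  unfold Fx
  induction L with
  | nil => simp [prq]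
  | cons S L ih =>
    have h1 := ih fun S hS => hL S (List.mem_cons_of_mem _ hS)
    have h2 : ExteriorAlgebra.map f (zval (xq S)) = zval (xq S) := (hL S List.mem_cons_self).2
    unfold prq at h1 ⊢
    rw [List.map_cons, List.prod_cons, map_mul, map_mul, h1, h2]

theorem odd_zeroq {f : Ed m} (hf : Fx f (ff false true (idM : Mt m))) {x : Zc (I2 m → ℂ)}
    (hx : Rx f x) {L : List (Qd m)} (hL : GLq f L) {k : ℕ} (hk : Odd k) (n : ℕ) :
    Lf m (x ^ k * ff false true (idM : Mt m) ^ n * prq L) = 0 := by
  have e := LF_map (det_f hf) (zval (x ^ k * ff false true (idM : Mt m) ^ n * prq L))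
  have h1 : ExteriorAlgebra.map f
      (zval (x ^ k * ff false true (idM : Mt m) ^ n * prq L)) =
      zval ((- x) ^ k * ff false true (idM : Mt m) ^ n * prq L) := by
    have h2 : ExteriorAlgebra.map f (zval x) = zval (-x) := hx
    have h3 : ExteriorAlgebra.map f (zval (ff false true (idM : Mt m))) =
      zval (ff false true (idM : Mt m)) := hf
    have h4 : ExteriorAlgebra.map f (zval (prq L)) = zval (prq L) := f_prq hL
    simp only [map_mul, map_pow, h2, h3, h4]
  rw [h1, hk.neg_pow, neg_mul, neg_mul, map_neg, map_neg] at e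
  rw [Lf_apply]
  linear_combination (-1 / 2 : ℂ) * e

/-- The sign of the mixed products. -/
theorem mixq_sign {f : Ed m} {W : Qd m} (hW : Hq W)
    (hf : Fx f (ff false true (idM : Mt m))) (hx : Rx f (xq W))
    {L : List (Qd m)} (hL : GLq f L) {N : ℕ}
    (hN : L.length + 2 * N = 2 * m) : ∃ b : ℝ, 0 ≤ b ∧
      Lf m (xq W ^ (2 * N) * prq L) =
        (-1) ^ N * (b : ℂ) * Lf m (ff false true (idM : Mt m) ^ (2 * m)) := by
  have hPD : ∀ S ∈ L, PDq S := fun S hS => (hL S hS).1
  set x := xq W with hx'
  set g : Zc (I2 m → ℂ) := ff false true (idM : Mt m) with hg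
  obtain ⟨r, hr, hr'⟩ := mixq_pos L hPD (2 * N) hN
  rw [← hg] at hr'
  set c := Lf m (g ^ (2 * N) * prq L) with hc
  have hL0 : Lf m (g ^ (2 * m)) ≠ 0 := LF_g_ne
  have h0 : c ≠ 0 := by
    rw [hr']
    exact mul_ne_zero (by exact_mod_cast hr.ne') hL0
  have hev : ∀ s : ℂ, Lf m ((x + s • g) ^ (2 * N) * prq L) =
      c * ∑ j ∈ Finset.range (N + 1),
        ((((2 * N).choose (2 * j) : ℕ) : ℂ) * Lf m (x ^ (2 * j) * g ^ (2 * N - 2 * j) * prq L) / c) *
          (s ^ 2) ^ (N - j) := by
    intro s
    rw [mix_expand, sum_even _ fun k hk => by rw [odd_zeroq hf hx hL hk]; ring,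
      Finset.mul_sum]
    refine Finset.sum_congr rfl fun j hj => ?_
    rw [Finset.mem_range] at hj
    have e : 2 * N - 2 * j = 2 * (N - j) := by omega
    rw [e, pow_mul s]
    field_simp
  obtain ⟨b, hb, hb'⟩ := sum_sign (m := N)
    (fun j => (((2 * N).choose (2 * j) : ℕ) : ℂ) * Lf m (x ^ (2 * j) * g ^ (2 * N - 2 * j) * prq L) /
      c) (by
      simp only [mul_zero, Nat.choose_zero_right, Nat.cast_one, one_mul, pow_zero, Nat.sub_zero]
      exact div_self h0) (fun w hw => by
      obtain ⟨s, hs⟩ := IsAlgClosed.exists_pow_nat_eq w (n := 2) (by norm_num)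
      have hsim : s.im = 0 := by
        by_contra hne
        have h1 := mixq_one hPD hN hW hne
        apply h1
        rw [← hx', ← hg, hev s, hs, hw, mul_zero]
      refine ⟨s.re ^ 2, sq_nonneg _, ?_⟩
      rw [← hs]
      have : s = (s.re : ℂ) := Complex.ext rfl (by rw [hsim, Complex.ofReal_im])
      rw [this]
      push_cast
      simp) (N := N) le_rfl
  refine ⟨b * r, by positivity, ?_⟩
  have h1 : Lf m (x ^ (2 * N) * prq L) = (-1) ^ N * (b : ℂ) * c := by
    have h2 := hb'
    rw [Nat.choose_self, Nat.cast_one, one_mul, Nat.sub_self, pow_zero, mul_one,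
      div_eq_iff h0] at h2
    exact h2
  rw [h1, hr']
  push_cast
  ring

/-- The cone of the products of positive definite quadruples preserved by `f`. -/
noncomputable def Kc (f : Ed m) (n : ℕ) : AddSubmonoid (Zc (I2 m → ℂ)) :=
  AddSubmonoid.closure {z | ∃ (r : ℝ) (L : List (Qd m)),
    0 ≤ r ∧ GLq f L ∧ L.length = 2 * n ∧ z = (((-1) ^ n * r : ℝ) : ℂ) • prq L}

theorem Kc_gen {f : Ed m} {n : ℕ} {r : ℝ} (hr : 0 ≤ r)
    {L : List (Qd m)} (hL : GLq f L) (hn : L.length = 2 * n) :
    (((-1) ^ n * r : ℝ) : ℂ) • prq L ∈ Kc f n :=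
  AddSubmonoid.subset_closure ⟨r, L, hr, hL, hn, rfl⟩

theorem Kc_one (f : Ed m) : (1 : Zc (I2 m → ℂ)) ∈ Kc f 0 := by
  have h := Kc_gen (f := f) (n := 0) (r := 1) zero_le_one (L := []) (fun S hS => by simp at hS) rfl
  rwa [pow_zero, one_mul, Complex.ofReal_one, one_smul, prq, List.map_nil, List.prod_nil] at h

theorem Kc_mul {f : Ed m} {n k : ℕ} {x y : Zc (I2 m → ℂ)} (hx : x ∈ Kc f n) (hy : y ∈ Kc f k) :
    x * y ∈ Kc f (n + k) := by
  unfold Kc at hx
  induction hx using AddSubmonoid.closure_induction with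
  | mem x hx =>
    obtain ⟨r, L, hr, hL, hn, rfl⟩ := hx
    unfold Kc at hy
    induction hy using AddSubmonoid.closure_induction with
    | mem y hy =>
      obtain ⟨s, L', hs, hL', hk, rfl⟩ := hy
      have h := Kc_gen (f := f) (n := n + k) (r := r * s) (by positivity) (L := L ++ L')
        (fun S hS => (List.mem_append.1 hS).elim (hL S) (hL' S)) (by
          rw [List.length_append, hn, hk]
          ring)
      convert h using 1
      rw [prq, prq, prq, List.map_append, List.prod_append, smul_mul_smul_comm]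
      congr 1
      push_cast
      ring
    | zero => rw [mul_zero]; exact (Kc f (n + k)).zero_mem
    | add y z _ _ hy hz => rw [mul_add]; exact (Kc f (n + k)).add_mem hy hz
  | zero => rw [zero_mul]; exact (Kc f (n + k)).zero_mem
  | add x z _ _ hx hz => rw [add_mul]; exact (Kc f (n + k)).add_mem hx hz

theorem Kc_pow {f : Ed m} {x : Zc (I2 m → ℂ)} (hx : x ∈ Kc f 1) (n : ℕ) : x ^ n ∈ Kc f n := by
  induction n with
  | zero => rw [pow_zero]; exact Kc_one f
  | succ n ih => rw [pow_succ]; exact Kc_mul ih hx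

theorem Kc_pos {f : Ed m} {W : Qd m} (hW : Hq W)
    (hf : Fx f (ff false true (idM : Mt m))) (hx : Rx f (xq W))
    {N n : ℕ} (hN : N + n = m) {T : Zc (I2 m → ℂ)} (hT : T ∈ Kc f n) :
    0 ≤ LR m (xq W ^ (2 * N) * T) := by
  unfold Kc at hT
  induction hT using AddSubmonoid.closure_induction with
  | mem x hx' =>
    obtain ⟨r, L, hr, hL, hn, rfl⟩ := hx'
    obtain ⟨b, hb, hb'⟩ := mixq_sign hW hf hx hL (N := N) (by omega)
    rw [LR_apply, mul_smul_comm, map_smul, map_smul, ← Lf_apply, hb', smul_eq_mul,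
      Complex.re_ofReal_mul]
    have e5 : (((-1 : ℂ)) ^ N * (b : ℂ)) = (((-1 : ℝ) ^ N * b : ℝ) : ℂ) := by push_cast; ring
    rw [e5, Complex.re_ofReal_mul]
    have h1 := top_sign (m := m)
    have e6 : (-1) ^ n * r * ((-1) ^ N * b *
        (Lf m (ff false true (idM : Mt m) ^ (2 * m))).re) =
        r * b * ((-1) ^ m * (Lf m (ff false true (idM : Mt m) ^ (2 * m))).re) := by
      rw [← hN, pow_add]
      ring
    rw [e6]
    positivity
  | zero => rw [mul_zero, map_zero]
  | add x y _ _ hx hy => rw [mul_add, map_add]; exact add_nonneg hx hy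

end Pool.Agent.U661.RZ
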