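import Pool.Agent.U661.RZ.Clo
import Pool.Agent.U661.RW.Ex

/-!
# Moore products of quaternionic hermitian forms
-/

set_option autoImplicit false

namespace Pool.Agent.U661.RZ

open Finset Pool.Agent.Y195.HF Pool.Agent.W666.GB Pool.Agent.W669.HD Pool.Agent.U661.HS
open Pool.Agent.U661.RW Pool.Agent.R770.QC
open Pool.Agent.U661.RV hiding co
open scoped Matrix ComplexOrder

variable {m : ℕ} {V : Type} [NormedAddCommGroup V] [InnerProductSpace ℝ V]

omit [NormedAddCommGroup V] [InnerProductSpace ℝ V] in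
/-- components -/
theorem co_eq (e : Fin m × Bool → V) (B : V → V → ℝ) :
    (co e B : Mt m) = cm fun i j => B (e i) (e j) := rfl

omit [NormedAddCommGroup V] [InnerProductSpace ℝ V] in
/-- the quadruple of matrices of a quadruple of forms -/
def qd (e : Fin m × Bool → V) (S B₁ B₂ B₃ : V → V → ℝ) : Qd m :=
  ![fun i j => S (e i) (e j), fun i j => B₂ (e i) (e j), fun i j => - B₃ (e i) (e j),
    fun i j => B₁ (e i) (e j)]

omit [NormedAddCommGroup V] [InnerProductSpace ℝ V] in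
theorem xq_qd (e : Fin m × Bool → V) (S B₁ B₂ B₃ : V → V → ℝ) :
    xq (qd e S B₁ B₂ B₃) = WQ (co e S) (co e B₁) (co e B₂) (co e B₃) := by
  have h0 : qd e S B₁ B₂ B₃ 0 = fun i j => S (e i) (e j) := rfl
  have h1 : qd e S B₁ B₂ B₃ 1 = fun i j => B₂ (e i) (e j) := rfl
  have h2 : qd e S B₁ B₂ B₃ 2 = fun i j => - B₃ (e i) (e j) := rfl
  have h3 : qd e S B₁ B₂ B₃ 3 = fun i j => B₁ (e i) (e j) := rfl
  have h4 : (cm fun i j => - B₃ (e i) (e j) : Mt m) = - co e B₃ := by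
    funext i j
    simp only [cm, co, Pi.neg_apply, Complex.ofReal_neg]
  rw [xq, h0, h1, h2, h3, h4, ← co_eq, ← co_eq]
  unfold WW WQ vv uu xs
  rw [RV.ff_neg, RV.ff_neg, ← co_eq]
  push_cast
  module

theorem qd_hq {S B₁ B₂ B₃ : V → V → ℝ} (h : QPos S B₁ B₂ B₃) (e : Fin m × Bool → V) :
    Hq (qd e S B₁ B₂ B₃) where
  s i j := (h.symm.symm (e i) (e j)).symm
  k1 i j := h.skew₂.anti (e i) (e j)
  k2 i j := by
    show - B₃ (e j) (e i) = - - B₃ (e i) (e j)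
    rw [h.skew₃.anti (e i) (e j)]
  k3 i j := h.skew₁.anti (e i) (e j)

theorem XT_qd (e : Fin m × Bool → V) {S B₁ B₂ B₃ : V → V → ℝ} (h : QPos S B₁ B₂ B₃)
    (a b : Fin m × Bool → ℂ) : 0 ≤ (XT (qd e S B₁ B₂ B₃) a b).re := by
  set z : I2 m → ℂ := fun p => if p.2 = true then - a p.1 else b p.1 with hz
  have h1 := (QMat_psd h e).dotProduct_mulVec_nonneg z
  have h2 : XT (qd e S B₁ B₂ B₃) a b = 2 * (star z ⬝ᵥ (QMat e S B₁ B₂ B₃ *ᵥ z)) := by
    have h0 : qd e S B₁ B₂ B₃ 0 = fun i j => S (e i) (e j) := rfl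
    have h1 : qd e S B₁ B₂ B₃ 1 = fun i j => B₂ (e i) (e j) := rfl
    have h2 : qd e S B₁ B₂ B₃ 2 = fun i j => - B₃ (e i) (e j) := rfl
    have h3 : qd e S B₁ B₂ B₃ 3 = fun i j => B₁ (e i) (e j) := rfl
    have split : ∀ f : I2 m → ℂ, ∑ q, f q = ∑ j, (f (j, true) + f (j, false)) := by
      intro f
      rw [Fintype.sum_prod_type]
      exact Finset.sum_congr rfl fun j _ => by rw [Fintype.sum_bool]
    unfold XT XX
    rw [dotProduct, split, Finset.mul_sum]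
    refine Finset.sum_congr rfl fun i _ => ?_
    rw [Matrix.mulVec, Matrix.mulVec, dotProduct, dotProduct, split, split]
    simp only [Finset.mul_sum, mul_add, mul_sub, ← Finset.sum_add_distrib,
      ← Finset.sum_sub_distrib]
    refine Finset.sum_congr rfl fun j _ => ?_
    simp only [QMat, Matrix.of_apply, if_true, if_false, Bool.false_eq_true, co, cm, hz,
      Pi.star_apply, Complex.star_def, Cq, Dq, Mq, Pi.add_apply, Pi.sub_apply, Pi.smul_apply,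
      smul_eq_mul, h0, h1, h2, h3, h.symm.symm (e i) (e j), h.skew₁.anti (e i) (e j), map_neg]
    push_cast
    ring
  rw [h2]
  have h3 : (0 : ℝ) ≤ (star z ⬝ᵥ (QMat e S B₁ B₂ B₃ *ᵥ z)).re := (Complex.nonneg_iff.1 h1).1
  have h4 : (2 * (star z ⬝ᵥ (QMat e S B₁ B₂ B₃ *ᵥ z))).re =
      2 * (star z ⬝ᵥ (QMat e S B₁ B₂ B₃ *ᵥ z)).re := by
    simp
  rw [h4]
  positivity

theorem qd_pd (e : Fin m × Bool → V) {S B₁ B₂ B₃ : V → V → ℝ} (h : QPos S B₁ B₂ B₃) {ε : ℝ}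
    (hε : 0 < ε) : PDq (qd e S B₁ B₂ B₃ + ε • oneq m) where
  hq := (qd_hq h e).add (hq_one.smul ε)
  pos a b hab := by
    rw [XT_add, XT_smul, Complex.add_re, Complex.re_ofReal_mul]
    have h1 := XT_qd e h a b
    have h2 := pdq_one.pos a b hab
    positivity

omit [NormedAddCommGroup V] [InnerProductSpace ℝ V] in
/-- `g` preserves the form `B` -/
def Pres (g : V → V) (B : V → V → ℝ) : Prop := ∀ x y, B (g x) (g y) = B x y

omit [NormedAddCommGroup V] [InnerProductSpace ℝ V] in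
/-- `g` reverses the form `B` -/
def Revs (g : V → V) (B : V → V → ℝ) : Prop := ∀ x y, B (g x) (g y) = - B x y

/-- A positive semidefinite quaternionic hermitian form whose four parts are preserved by `g`. -/
structure PQ (g : V → V) (S B₁ B₂ B₃ : V → V → ℝ) : Prop where
  q : QPos S B₁ B₂ B₃
  s : Pres g S
  b₁ : Pres g B₁
  b₂ : Pres g B₂
  b₃ : Pres g B₃

theorem PQ.cyc {g : V → V} {S B₁ B₂ B₃ : V → V → ℝ} (h : PQ g S B₁ B₂ B₃) : PQ g S B₂ B₃ B₁ :=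
  ⟨h.q.cyc, h.s, h.b₂, h.b₃, h.b₁⟩

theorem PQ.flip {g : V → V} {S B₁ B₂ B₃ : V → V → ℝ} (h : PQ g S B₁ B₂ B₃) :
    PQ g S B₁ (fun x y => - B₂ x y) (fun x y => - B₃ x y) :=
  ⟨h.q.flip, h.s, h.b₁, fun x y => by simp only [h.b₂ x y], fun x y => by simp only [h.b₃ x y]⟩

theorem Fx.add {f : Ed m} {x y : Zc (I2 m → ℂ)} (hx : Fx f x) (hy : Fx f y) : Fx f (x + y) := by
  unfold Fx at *
  rw [map_add, map_add, hx, hy]

theorem fx_qd (e : OrthonormalBasis (Fin m × Bool) ℝ V) (g : V →ₗᵢ[ℝ] V)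
    {S B₁ B₂ B₃ : V → V → ℝ} (h : PQ g S B₁ B₂ B₃) :
    Fx (lin (gmat e g)) (xq (qd e S B₁ B₂ B₃)) := by
  have h0 : qd e S B₁ B₂ B₃ 0 = fun i j => S (e i) (e j) := rfl
  have h1 : qd e S B₁ B₂ B₃ 1 = fun i j => B₂ (e i) (e j) := rfl
  have h2 : qd e S B₁ B₂ B₃ 2 = fun i j => - B₃ (e i) (e j) := rfl
  have h3 : qd e S B₁ B₂ B₃ 3 = fun i j => B₁ (e i) (e j) := rfl
  have hn := skew_neg h.q.skew₃
  have hs : SymForm S := ⟨h.q.symm.add, h.q.symm.smul, h.q.symm.symm⟩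
  refine Fx.add (lin_WW_fx ?_ ?_ ?_) (lin_ff_fx _ _ ?_)
  · rw [h1]
    exact gmat_fix e g (skew_bl h.q.skew₂) h.b₂
  · rw [h2]
    exact gmat_fix e g (skew_bl hn) fun x y => by simp only [h.b₃ x y]
  · rw [h3]
    exact gmat_fix e g (skew_bl h.q.skew₁) h.b₁
  · rw [h0]
    exact gmat_fix e g hs.bl h.s

/-- The product of two elements. -/
theorem Kb_WQ (e : OrthonormalBasis (Fin m × Bool) ℝ V) (g : V →ₗᵢ[ℝ] V)
    {S B₁ B₂ B₃ S' B₁' B₂' B₃' : V → V → ℝ} (h : PQ g S B₁ B₂ B₃) (h' : PQ g S' B₁' B₂' B₃') :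
    Kb (lin (gmat e g)) (-(WQ (co e S) (co e B₁) (co e B₂) (co e B₃) *
      WQ (co e S') (co e B₁') (co e B₂') (co e B₃'))) := by
  have h1 := Kb.two (f := lin (gmat e g)) (lin_ff_fx _ _ (gmat_id e g)) (r := 1) zero_le_one
    (fun ε hε => qd_pd e h.q hε) (fun ε hε => qd_pd e h'.q hε) (fx_qd e g h) (fx_qd e g h')
  rwa [xq_qd, xq_qd, neg_smul, one_smul] at h1

/-- Four rotations. -/
theorem Kb_four (e : OrthonormalBasis (Fin m × Bool) ℝ V) (g : V →ₗᵢ[ℝ] V)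
    {S B₁ B₂ B₃ S' B₁' B₂' B₃' : V → V → ℝ} (h : PQ g S B₁ B₂ B₃) (h' : PQ g S' B₁' B₂' B₃') :
    Kb (lin (gmat e g)) (-(
      WQ (co e S) (co e B₁) (co e B₂) (co e B₃) * WQ (co e S') (co e B₁') (co e B₂') (co e B₃') +
      WQ (co e S) (co e B₁) (-co e B₂) (-co e B₃) *
        WQ (co e S') (co e B₁') (-co e B₂') (-co e B₃') +
      WQ (co e S) (-co e B₁) (co e B₂) (-co e B₃) *
        WQ (co e S') (-co e B₁') (co e B₂') (-co e B₃') +
      WQ (co e S) (-co e B₁) (-co e B₂) (co e B₃) *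
        WQ (co e S') (-co e B₁') (-co e B₂') (co e B₃'))) := by
  have h1 := Kb_WQ e g h h'
  have h2 := Kb_WQ e g h.flip h'.flip
  have h3 := Kb_WQ e g h.cyc.flip.cyc.cyc h'.cyc.flip.cyc.cyc
  have h4 := Kb_WQ e g h.cyc.cyc.flip.cyc h'.cyc.cyc.flip.cyc
  simp only [co_neg] at h2 h3 h4
  have h5 := ((h1.add h2).add h3).add h4
  convert h5 using 1
  ring

omit [NormedAddCommGroup V] [InnerProductSpace ℝ V] in
/-- The polarization of `EH`: the Moore product of two quaternionic hermitian forms. -/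
def moore (T T' : Fin 4 → V → V → ℝ) (x y z w : V) : ℝ :=
  EH (T 0 + T' 0) (T 1 + T' 1) (T 2 + T' 2) (T 3 + T' 3) x y z w -
    EH (T 0) (T 1) (T 2) (T 3) x y z w - EH (T' 0) (T' 1) (T' 2) (T' 3) x y z w

omit [NormedAddCommGroup V] [InnerProductSpace ℝ V] in
theorem co_add (e : Fin m × Bool → V) (B B' : V → V → ℝ) : (co e (B + B') : Mt m) =
    co e B + co e B' := by
  funext i j
  simp only [co, cm, Pi.add_apply]
  push_cast
  rfl

theorem WQ_add (S B₁ B₂ B₃ S' B₁' B₂' B₃' : Mt m) :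
    WQ (S + S') (B₁ + B₁') (B₂ + B₂') (B₃ + B₃') = WQ S B₁ B₂ B₃ + WQ S' B₁' B₂' B₃' := by
  unfold WQ vv uu
  simp only [ff_add]
  module

omit [NormedAddCommGroup V] [InnerProductSpace ℝ V] in
theorem eL_moore (e : Fin m × Bool → V) (T T' : Fin 4 → V → V → ℝ) :
    eL (cx (fun i j k l => moore T T' (e i) (e j) (e k) (e l) : T4 m)) =
      eL (cx (fun i j k l => EH (T 0 + T' 0) (T 1 + T' 1) (T 2 + T' 2) (T 3 + T' 3)
        (e i) (e j) (e k) (e l) : T4 m)) -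
      eL (cx (fun i j k l => EH (T 0) (T 1) (T 2) (T 3) (e i) (e j) (e k) (e l) : T4 m)) -
      eL (cx (fun i j k l => EH (T' 0) (T' 1) (T' 2) (T' 3) (e i) (e j) (e k) (e l) : T4 m)) := by
  have h1 : (cx (fun i j k l => moore T T' (e i) (e j) (e k) (e l) : T4 m) : C4 m) =
      fun i j k l => (fun i j k l => cx (fun i j k l => EH (T 0 + T' 0) (T 1 + T' 1) (T 2 + T' 2)
        (T 3 + T' 3) (e i) (e j) (e k) (e l) : T4 m) i j k l + (fun i j k l => (-1 : ℂ) *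
        cx (fun i j k l => EH (T 0) (T 1) (T 2) (T 3) (e i) (e j) (e k) (e l) : T4 m) i j k l :
          C4 m) i j k l : C4 m) i j k l + (fun i j k l => (-1 : ℂ) * cx (fun i j k l =>
        EH (T' 0) (T' 1) (T' 2) (T' 3) (e i) (e j) (e k) (e l) : T4 m) i j k l : C4 m) i j k l := by
    funext i j k l
    simp only [cx, moore]
    push_cast
    ring
  rw [h1, eL_add, eL_add, eL_smul, eL_smul]
  module

/-- The Moore product lies in the closed cone. -/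
theorem Kb_moore (e : OrthonormalBasis (Fin m × Bool) ℝ V) (g : V →ₗᵢ[ℝ] V)
    {T T' : Fin 4 → V → V → ℝ} (h : PQ g (T 0) (T 1) (T 2) (T 3))
    (h' : PQ g (T' 0) (T' 1) (T' 2) (T' 3)) :
    Kb (lin (gmat e g)) (eL (cx (cp e (moore T T')))) := by
  have h1 := ((Kb_four e g h h').add (Kb_four e g h.cyc h'.cyc)).add
    (Kb_four e g h.cyc.cyc h'.cyc.cyc)
  convert h1 using 1
  have e0 : (cp e (moore T T') : T4 m) = fun i j k l => moore T T' (e i) (e j) (e k) (e l) := rfl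
  rw [e0, eL_moore (fun i => e i), eL_EH, eL_EH, eL_EH, ← twelve, ← twelve, ← twelve]
  simp only [co_add, neg_add, WQ_add]
  simp only [Algebra.smul_def]
  have h2 : algebraMap ℝ (Zc (I2 m → ℂ)) (-1 / 2) * 2 = -1 := by
    rw [show (2 : Zc (I2 m → ℂ)) = algebraMap ℝ (Zc (I2 m → ℂ)) 2 from (map_ofNat _ 2).symm,
      ← map_mul, show (-1 / 2 : ℝ) * 2 = -1 by norm_num, map_neg, map_one]
  generalize algebraMap ℝ (Zc (I2 m → ℂ)) (-1 / 2) = t at h2 ⊢
  linear_combination (WQ (co e (T 0)) (co e (T 1)) (co e (T 2)) (co e (T 3)) *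
      WQ (co e (T' 0)) (co e (T' 1)) (co e (T' 2)) (co e (T' 3)) +
    WQ (co e (T 0)) (co e (T 1)) (-co e (T 2)) (-co e (T 3)) *
      WQ (co e (T' 0)) (co e (T' 1)) (-co e (T' 2)) (-co e (T' 3)) +
    WQ (co e (T 0)) (-co e (T 1)) (co e (T 2)) (-co e (T 3)) *
      WQ (co e (T' 0)) (-co e (T' 1)) (co e (T' 2)) (-co e (T' 3)) +
    WQ (co e (T 0)) (-co e (T 1)) (-co e (T 2)) (co e (T 3)) *
      WQ (co e (T' 0)) (-co e (T' 1)) (-co e (T' 2)) (co e (T' 3)) +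
    WQ (co e (T 0)) (co e (T 2)) (co e (T 3)) (co e (T 1)) *
      WQ (co e (T' 0)) (co e (T' 2)) (co e (T' 3)) (co e (T' 1)) +
    WQ (co e (T 0)) (co e (T 2)) (-co e (T 3)) (-co e (T 1)) *
      WQ (co e (T' 0)) (co e (T' 2)) (-co e (T' 3)) (-co e (T' 1)) +
    WQ (co e (T 0)) (-co e (T 2)) (co e (T 3)) (-co e (T 1)) *
      WQ (co e (T' 0)) (-co e (T' 2)) (co e (T' 3)) (-co e (T' 1)) +
    WQ (co e (T 0)) (-co e (T 2)) (-co e (T 3)) (co e (T 1)) *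
      WQ (co e (T' 0)) (-co e (T' 2)) (-co e (T' 3)) (co e (T' 1)) +
    WQ (co e (T 0)) (co e (T 3)) (co e (T 1)) (co e (T 2)) *
      WQ (co e (T' 0)) (co e (T' 3)) (co e (T' 1)) (co e (T' 2)) +
    WQ (co e (T 0)) (co e (T 3)) (-co e (T 1)) (-co e (T 2)) *
      WQ (co e (T' 0)) (co e (T' 3)) (-co e (T' 1)) (-co e (T' 2)) +
    WQ (co e (T 0)) (-co e (T 3)) (co e (T 1)) (-co e (T 2)) *
      WQ (co e (T' 0)) (-co e (T' 3)) (co e (T' 1)) (-co e (T' 2)) +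
    WQ (co e (T 0)) (-co e (T 3)) (-co e (T 1)) (co e (T 2)) *
      WQ (co e (T' 0)) (-co e (T' 3)) (-co e (T' 1)) (co e (T' 2))) * h2

end Pool.Agent.U661.RZ
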