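import Pool.Agent.U661.RV.Mix

/-!
# Nonvanishing for quaternionic hermitian pencils
-/

set_option autoImplicit false

namespace Pool.Agent.U661.RZ

open Finset Pool.Agent.Y195.HF Pool.Agent.U661.HS Pool.Agent.U661.RV

variable {m : ℕ}

/-- Quadruples of real matrices: `T 0 + i T 1 + j T 2 + k T 3`. -/
abbrev Qd (m : ℕ) := Fin 4 → Fin m × Bool → Fin m × Bool → ℝ

/-- quaternionic hermitian: `T 0` symmetric, the others skew -/
structure Hq (T : Qd m) : Prop where
  s : ∀ i j, T 0 i j = T 0 j i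
  k1 : ∀ i j, T 1 j i = - T 1 i j
  k2 : ∀ i j, T 2 j i = - T 2 i j
  k3 : ∀ i j, T 3 j i = - T 3 i j

/-- the element -/
noncomputable def xq (T : Qd m) : Zc (I2 m → ℂ) :=
  WW (cm (T 1)) (cm (T 2)) (cm (T 3)) + xs (T 0)

theorem cm_add (A B : Fin m × Bool → Fin m × Bool → ℝ) : (cm (A + B) : Mt m) = cm A + cm B := by
  funext i j
  simp [cm]

theorem cm_smul (r : ℝ) (A : Fin m × Bool → Fin m × Bool → ℝ) :
    (cm (r • A) : Mt m) = (r : ℂ) • cm A := by
  funext i j
  simp [cm]

theorem xq_add (T T' : Qd m) : xq (T + T') = xq T + xq T' := by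
  unfold xq WW
  simp only [Pi.add_apply, cm_add, xs_add, ff_add]
  module

theorem xq_smul (r : ℝ) (T : Qd m) : xq (r • T) = (r : ℂ) • xq T := by
  unfold xq WW
  simp only [Pi.smul_apply, cm_smul, xs_smul, ff_smul]
  module

theorem Hq.add {T T' : Qd m} (h : Hq T) (h' : Hq T') : Hq (T + T') where
  s i j := by simp only [Pi.add_apply, h.s i j, h'.s i j]
  k1 i j := by simp only [Pi.add_apply, h.k1 i j, h'.k1 i j]; ring
  k2 i j := by simp only [Pi.add_apply, h.k2 i j, h'.k2 i j]; ring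
  k3 i j := by simp only [Pi.add_apply, h.k3 i j, h'.k3 i j]; ring

theorem Hq.smul {T : Qd m} (h : Hq T) (r : ℝ) : Hq (r • T) where
  s i j := by simp only [Pi.smul_apply, smul_eq_mul, h.s i j]
  k1 i j := by simp only [Pi.smul_apply, smul_eq_mul, h.k1 i j]; ring
  k2 i j := by simp only [Pi.smul_apply, smul_eq_mul, h.k2 i j]; ring
  k3 i j := by simp only [Pi.smul_apply, smul_eq_mul, h.k3 i j]; ring

/-- parts of the matrix -/
noncomputable def Cq (T : Qd m) : Mt m := (1 / 2 : ℂ) • cm (T 1) + (Complex.I / 2) • cm (T 2)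

/-- parts of the matrix -/
noncomputable def Dq (T : Qd m) : Mt m := (1 / 2 : ℂ) • cm (T 1) - (Complex.I / 2) • cm (T 2)

/-- parts of the matrix -/
noncomputable def Mq (T : Qd m) : Mt m := cm (T 0) + Complex.I • cm (T 3)

theorem ff_sub' (s t : Bool) (A B : Mt m) : ff s t (A - B) = ff s t A - ff s t B := by
  have h1 : A - B = A + (-1 : ℂ) • B := by module
  rw [h1, ff_add, ff_smul]
  module

theorem xq_eq (T : Qd m) :
    xq T = ff false false (Cq T) + ff true true (Dq T) + ff false true (Mq T) := by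
  unfold xq WW Cq Dq Mq xs
  rw [ff_add, ff_sub', ff_add, ff_smul, ff_smul, ff_smul, ff_smul, ff_smul]
  module

/-- the sesquilinear form -/
noncomputable def XX (C D M : Mt m) (a b : Fin m × Bool → ℂ) : ℂ :=
  ∑ i, ((starRingEnd ℂ) (b i) * (2 * (∑ j, C i j * a j) + ∑ j, M i j * b j) +
    (starRingEnd ℂ) (a i) * ((∑ j, M j i * a j) - 2 * ∑ j, D i j * b j))

theorem XX_add (C C' D D' M M' : Mt m) (a b : Fin m × Bool → ℂ) :
    XX (C + C') (D + D') (M + M') a b = XX C D M a b + XX C' D' M' a b := by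
  unfold XX
  rw [← Finset.sum_add_distrib]
  refine Finset.sum_congr rfl fun i _ => ?_
  simp only [Pi.add_apply, add_mul, Finset.sum_add_distrib]
  ring

theorem XX_smul (z : ℂ) (C D M : Mt m) (a b : Fin m × Bool → ℂ) :
    XX (z • C) (z • D) (z • M) a b = z * XX C D M a b := by
  unfold XX
  rw [Finset.mul_sum]
  refine Finset.sum_congr rfl fun i _ => ?_
  simp only [Pi.smul_apply, smul_eq_mul, mul_assoc, ← Finset.mul_sum]
  ring

/-- the hermitian form of a quadruple -/
noncomputable def XT (T : Qd m) (a b : Fin m × Bool → ℂ) : ℂ := XX (Cq T) (Dq T) (Mq T) a b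

theorem XT_add (T T' : Qd m) (a b : Fin m × Bool → ℂ) :
    XT (T + T') a b = XT T a b + XT T' a b := by
  unfold XT
  rw [← XX_add]
  congr 1 <;> simp only [Cq, Dq, Mq, Pi.add_apply, cm_add] <;> module

theorem XT_smul (r : ℝ) (T : Qd m) (a b : Fin m × Bool → ℂ) :
    XT (r • T) a b = (r : ℂ) * XT T a b := by
  unfold XT
  rw [← XX_smul]
  congr 1 <;> simp only [Cq, Dq, Mq, Pi.smul_apply, cm_smul] <;> module

theorem XT_im {T : Qd m} (h : Hq T) (a b : Fin m × Bool → ℂ) : (XT T a b).im = 0 := by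
  rw [← Complex.conj_eq_iff_im]
  have e : XT T a b = ∑ i, ∑ j, ((starRingEnd ℂ) (b i) * (((T 1 i j : ℝ) : ℂ) +
      Complex.I * ((T 2 i j : ℝ) : ℂ)) * a j + (starRingEnd ℂ) (b i) * (((T 0 i j : ℝ) : ℂ) +
      Complex.I * ((T 3 i j : ℝ) : ℂ)) * b j + (starRingEnd ℂ) (a i) * (((T 0 j i : ℝ) : ℂ) +
      Complex.I * ((T 3 j i : ℝ) : ℂ)) * a j - (starRingEnd ℂ) (a i) * (((T 1 i j : ℝ) : ℂ) -
      Complex.I * ((T 2 i j : ℝ) : ℂ)) * b j) := by
    unfold XT XX
    refine Finset.sum_congr rfl fun i _ => ?_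
    simp only [Finset.mul_sum, mul_add, mul_sub, ← Finset.sum_add_distrib,
      ← Finset.sum_sub_distrib]
    refine Finset.sum_congr rfl fun j _ => ?_
    simp only [Cq, Dq, Mq, Pi.add_apply, Pi.sub_apply, Pi.smul_apply, smul_eq_mul, cm]
    ring
  rw [e]
  simp only [map_sum]
  rw [Finset.sum_comm]
  refine Finset.sum_congr rfl fun i _ => Finset.sum_congr rfl fun j _ => ?_
  simp only [map_add, map_sub, map_mul, Complex.conj_conj, Complex.conj_ofReal, Complex.conj_I,
    h.k1 i j, h.k2 i j, h.k3 i j, ← h.s i j]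
  push_cast
  ring

/-- positive definite quaternionic hermitian quadruples -/
structure PDq (T : Qd m) : Prop where
  hq : Hq T
  pos : ∀ a b : Fin m × Bool → ℂ, ¬ (a = 0 ∧ b = 0) → 0 < (XT T a b).re

theorem PDq.nonneg {T : Qd m} (h : PDq T) (a b : Fin m × Bool → ℂ) : 0 ≤ (XT T a b).re := by
  by_cases hab : a = 0 ∧ b = 0
  · obtain ⟨rfl, rfl⟩ := hab
    simp [XT, XX]
  · exact (h.pos a b hab).le

theorem PDq.add {S T : Qd m} (hT : PDq T) (hS : PDq S) {r : ℝ} (hr : 0 ≤ r) : PDq (T + r • S) where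
  hq := hT.hq.add (hS.hq.smul r)
  pos a b hab := by
    rw [XT_add, XT_smul, Complex.add_re, Complex.re_ofReal_mul]
    have h1 := hT.pos a b hab
    have h2 := hS.nonneg a b
    positivity

theorem PDq.smul {S : Qd m} (hS : PDq S) {r : ℝ} (hr : 0 < r) : PDq (r • S) where
  hq := hS.hq.smul r
  pos a b hab := by
    rw [XT_smul, Complex.re_ofReal_mul]
    exact mul_pos hr (hS.pos a b hab)

/-- **Nonvanishing.** -/
theorem xq_ne {W T : Qd m} (hW : Hq W) (hT : PDq T) :
    LF m (zval ((xq W + Complex.I • xq T) ^ (2 * m))) ≠ 0 := by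
  set C : Mt m := Cq W + Complex.I • Cq T with hC
  set D : Mt m := Dq W + Complex.I • Dq T with hD
  set M : Mt m := Mq W + Complex.I • Mq T with hM
  have hx : xq W + Complex.I • xq T = ff false false C + ff true true D + ff false true M := by
    rw [xq_eq, xq_eq, hC, hD, hM, ff_add, ff_add, ff_add, ff_smul, ff_smul, ff_smul]
    module
  rw [hx, two_mul, ← om_eq]
  have sC : ∀ i j, C j i = - C i j := by
    intro i j
    simp only [hC, Cq, Pi.add_apply, Pi.smul_apply, smul_eq_mul, cm, hW.k1 i j, hW.k2 i j,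
      hT.hq.k1 i j, hT.hq.k2 i j]
    push_cast
    ring
  have sD : ∀ i j, D j i = - D i j := by
    intro i j
    simp only [hD, Dq, Pi.add_apply, Pi.sub_apply, Pi.smul_apply, smul_eq_mul, cm, hW.k1 i j,
      hW.k2 i j, hT.hq.k1 i j, hT.hq.k2 i j]
    push_cast
    ring
  refine LF_om_ne_zero _ _ (al_surj _ _ fun d hd => ?_)
  set a : Fin m × Bool → ℂ := fun j => d (th m false j) with ha
  set b : Fin m × Bool → ℂ := fun j => d (th m true j) with hb
  have e1 : ∀ i, 2 * (∑ j, C i j * a j) + ∑ j, M i j * b j = 0 := by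
    intro x
    have h := congrFun hd (x, false)
    rw [al_false, Pi.zero_apply] at h
    have h3 : ∑ i, C i x * d (th m false i) = -∑ j, C x j * d (th m false j) := by
      rw [← Finset.sum_neg_distrib]
      refine Finset.sum_congr rfl fun i _ => ?_
      rw [sC x i]
      ring
    rw [h3] at h
    linear_combination -h
  have e2 : ∀ i, (∑ j, M j i * a j) - 2 * (∑ j, D i j * b j) = 0 := by
    intro x
    have h := congrFun hd (x, true)
    rw [al_true, Pi.zero_apply] at h
    have h3 : ∑ i, D i x * d (th m true i) = -∑ j, D x j * d (th m true j) := by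
      rw [← Finset.sum_neg_distrib]
      refine Finset.sum_congr rfl fun i _ => ?_
      rw [sD x i]
      ring
    rw [h3] at h
    linear_combination h
  have h0 : XX C D M a b = 0 := by
    unfold XX
    refine Finset.sum_eq_zero fun i _ => ?_
    rw [e1, e2, mul_zero, mul_zero, add_zero]
  have h1 : XT W a b + Complex.I * XT T a b = 0 := by
    rw [XT, XT, ← XX_smul, ← XX_add]
    exact h0
  have h2 := congrArg Complex.im h1
  rw [Complex.add_im, XT_im hW, Complex.I_mul_im, Complex.zero_im, zero_add] at h2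
  have h3 : a = 0 ∧ b = 0 := by
    by_contra hab
    exact absurd h2 (hT.pos a b hab).ne'
  exact dual_zero d (congrFun h3.1) (congrFun h3.2)

end Pool.Agent.U661.RZ
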