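import Pool.Agent.U661.RZ.Ex
import Pool.Agent.W666.GB.Sec

/-!
# Moore products have nonnegative sectional curvature
-/

set_option autoImplicit false

namespace Pool.Agent.U661.RZ

open Finset Pool.Agent.Y195.HF Pool.Agent.W666.GB Pool.Agent.W669.HD Pool.Agent.U661.HS
open Pool.Agent.U661.RW Pool.Agent.R770.QC
open Pool.Agent.U661.RV hiding co

variable {m : ℕ} {V : Type} [NormedAddCommGroup V] [InnerProductSpace ℝ V]

theorem comb_curv {R S : V → V → V → V → ℝ} (hR : AlgCurv R) (hS : AlgCurv S) (a b : ℝ) :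
    AlgCurv (fun x y z w => a * R x y z w + b * S x y z w) where
  add x x' y z w := by rw [hR.add, hS.add]; ring
  smul t x y z w := by rw [hR.smul, hS.smul]; ring
  anti x y z w := by rw [hR.anti, hS.anti]; ring
  pair x y z w := by rw [hR.pair, hS.pair]
  bianchi x y z w := by linear_combination a * hR.bianchi x y z w + b * hS.bianchi x y z w

theorem sum_curv {r : ℕ} {R : Fin r → V → V → V → V → ℝ} (hR : ∀ j, AlgCurv (R j)) :
    AlgCurv (fun x y z w => ∑ j, R j x y z w) where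
  add x x' y z w := by simp only [(hR _).add, Finset.sum_add_distrib]
  smul t x y z w := by simp only [(hR _).smul, Finset.mul_sum]
  anti x y z w := by
    rw [← Finset.sum_neg_distrib]
    exact Finset.sum_congr rfl fun j _ => (hR j).anti x y z w
  pair x y z w := Finset.sum_congr rfl fun j _ => (hR j).pair x y z w
  bianchi x y z w := by
    rw [← Finset.sum_add_distrib, ← Finset.sum_add_distrib]
    exact Finset.sum_eq_zero fun j _ => (hR j).bianchi x y z w

theorem EH_curv {S B₁ B₂ B₃ : V → V → ℝ} (hS : R770.NS.SymForm S) (h₁ : SkewForm B₁)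
    (h₂ : SkewForm B₂) (h₃ : SkewForm B₃) : AlgCurv (EH S B₁ B₂ B₃) := by
  have h := comb_curv (comb_curv hS.curv h₁.curv 3 (-1)) (comb_curv h₂.curv h₃.curv (-1) (-1)) 1 1
  have e : EH S B₁ B₂ B₃ = fun x y z w => 1 * (3 * R770.NS.knSq S x y z w +
      (-1) * skewCurv B₁ x y z w) + 1 * ((-1) * skewCurv B₂ x y z w +
      (-1) * skewCurv B₃ x y z w) := by
    funext x y z w
    simp only [EH]
    ring
  rw [e]
  exact h

theorem sym_add {S S' : V → V → ℝ} (h : R770.NS.SymForm S) (h' : R770.NS.SymForm S') :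
    R770.NS.SymForm (S + S') :=
  ⟨fun x x' y => by simp only [Pi.add_apply, h.add, h'.add]; ring,
    fun t x y => by simp only [Pi.add_apply, h.smul, h'.smul]; ring,
    fun x y => by simp only [Pi.add_apply, h.symm x y, h'.symm x y]⟩

theorem skew_add {S S' : V → V → ℝ} (h : SkewForm S) (h' : SkewForm S') : SkewForm (S + S') :=
  ⟨fun x x' y => by simp only [Pi.add_apply, h.add, h'.add]; ring,
    fun t x y => by simp only [Pi.add_apply, h.smul, h'.smul]; ring,
    fun x y => by simp only [Pi.add_apply, h.anti x y, h'.anti x y]; ring⟩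

theorem moore_curv {T T' : Fin 4 → V → V → ℝ} (h : QPos (T 0) (T 1) (T 2) (T 3))
    (h' : QPos (T' 0) (T' 1) (T' 2) (T' 3)) : AlgCurv (moore T T') := by
  have h1 := EH_curv (sym_add h.symm h'.symm) (skew_add h.skew₁ h'.skew₁)
    (skew_add h.skew₂ h'.skew₂) (skew_add h.skew₃ h'.skew₃)
  have h2 := EH_curv h.symm h.skew₁ h.skew₂ h.skew₃
  have h3 := EH_curv h'.symm h'.skew₁ h'.skew₂ h'.skew₃
  have h4 := comb_curv h1 (comb_curv h2 h3 1 1) 1 (-1)
  have e : moore T T' = fun x y z w => 1 * EH (T 0 + T' 0) (T 1 + T' 1) (T 2 + T' 2) (T 3 + T' 3)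
      x y z w + (-1) * (1 * EH (T 0) (T 1) (T 2) (T 3) x y z w +
      1 * EH (T' 0) (T' 1) (T' 2) (T' 3) x y z w) := by
    funext x y z w
    simp only [moore]
    ring
  rw [e]
  exact h4

theorem MCone.curv {g : V → V} {D : V → V → V → V → ℝ} (h : MCone g D) : AlgCurv D := by
  obtain ⟨r, T, T', hT, hD⟩ := h
  have e : D = fun x y z w => ∑ j, moore (T j) (T' j) x y z w := by
    funext x y z w
    exact hD x y z w
  rw [e]
  exact sum_curv fun j => moore_curv (hT j).1.q (hT j).2.q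

/-- The two by two inequality. -/
theorem qpos_two {S B₁ B₂ B₃ : V → V → ℝ} (h : QPos S B₁ B₂ B₃) (x y : V)
    (t r₀ r₁ r₂ r₃ : ℝ) : 0 ≤ t ^ 2 * S x x + 2 * t * (r₀ * S x y + r₁ * B₁ x y + r₂ * B₂ x y +
      r₃ * B₃ x y) + (r₀ ^ 2 + r₁ ^ 2 + r₂ ^ 2 + r₃ ^ 2) * S y y := by
  have hs : HS.SymForm S := ⟨h.symm.add, h.symm.smul, h.symm.symm⟩
  have h1 := h.pos (t • x + r₀ • y) (r₁ • y) (r₂ • y) (r₃ • y)
  have b1 := skew_bl h.skew₁
  have b2 := skew_bl h.skew₂
  have b3 := skew_bl h.skew₃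
  have z1 : B₁ y y = 0 := by have := h.skew₁.anti y y; linarith
  have z2 : B₂ y y = 0 := by have := h.skew₂.anti y y; linarith
  have z3 : B₃ y y = 0 := by have := h.skew₃.anti y y; linarith
  simp only [hs.bl.add, hs.bl.add', hs.bl.smul, hs.bl.smul', b1.add, b1.add', b1.smul, b1.smul',
    b2.add, b2.add', b2.smul, b2.smul', b3.add, b3.add', b3.smul, b3.smul', z1, z2, z3,
    hs.symm x y] at h1
  linarith

/-- Moore products have nonnegative sectional curvature. -/
theorem moore_sec {T T' : Fin 4 → V → V → ℝ} (h : QPos (T 0) (T 1) (T 2) (T 3))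
    (h' : QPos (T' 0) (T' 1) (T' 2) (T' 3)) (x y : V) : 0 ≤ moore T T' x y x y := by
  have e : moore T T' x y x y = 3 * (T 0 x x * T' 0 y y + T' 0 x x * T 0 y y -
      2 * (T 0 x y * T' 0 x y + T 1 x y * T' 1 x y + T 2 x y * T' 2 x y + T 3 x y * T' 3 x y)) := by
    have a1 := h.skew₁.anti x y
    have a2 := h.skew₂.anti x y
    have a3 := h.skew₃.anti x y
    have a1' := h'.skew₁.anti x y
    have a2' := h'.skew₂.anti x y
    have a3' := h'.skew₃.anti x y
    have s := h.symm.symm x y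
    have s' := h'.symm.symm x y
    have z1 : T 1 x x = 0 := by have := h.skew₁.anti x x; linarith
    have z2 : T 2 x x = 0 := by have := h.skew₂.anti x x; linarith
    have z3 : T 3 x x = 0 := by have := h.skew₃.anti x x; linarith
    have z1' : T' 1 x x = 0 := by have := h'.skew₁.anti x x; linarith
    have z2' : T' 2 x x = 0 := by have := h'.skew₂.anti x x; linarith
    have z3' : T' 3 x x = 0 := by have := h'.skew₃.anti x x; linarith
    simp only [moore, EH, R770.NS.knSq, skewCurv, Pi.add_apply, a1, a2, a3, a1', a2', a3', s, s',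
      z1, z2, z3, z1', z2', z3']
    ring
  rw [e]
  have hb' : 0 ≤ T' 0 y y := by
    have := qpos_two h' x y 0 1 0 0 0
    nlinarith
  have ha' : 0 ≤ T' 0 x x := by
    have := qpos_two h' x y 1 0 0 0 0
    nlinarith
  have ha : 0 ≤ T 0 x x := by
    have := qpos_two h x y 1 0 0 0 0
    nlinarith
  have hb : 0 ≤ T 0 y y := by
    have := qpos_two h x y 0 1 0 0 0
    nlinarith
  set a := T 0 x x
  set b := T 0 y y
  set a' := T' 0 x x
  set b' := T' 0 y y
  set q0 := T 0 x y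
  set q1 := T 1 x y
  set q2 := T 2 x y
  set q3 := T 3 x y
  set p0 := T' 0 x y
  set p1 := T' 1 x y
  set p2 := T' 2 x y
  set p3 := T' 3 x y
  -- the second form: `|p|² ≤ a' b'`
  have hp : p0 ^ 2 + p1 ^ 2 + p2 ^ 2 + p3 ^ 2 ≤ a' * b' := by
    set P := p0 ^ 2 + p1 ^ 2 + p2 ^ 2 + p3 ^ 2 with hP
    have hP0 : 0 ≤ P := by positivity
    by_contra hcon
    push Not at hcon
    have hPpos : 0 < P := lt_of_le_of_lt (by positivity) hcon
    rcases hb'.eq_or_lt with hb0 | hb0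
    · -- b' = 0
      obtain ⟨s, hs⟩ : ∃ s : ℝ, s * P = (a' + 1) / 2 :=
        ⟨(a' + 1) / 2 / P, div_mul_cancel₀ _ hPpos.ne'⟩
      have h1 := qpos_two h' x y 1 (-(s * p0)) (-(s * p1)) (-(s * p2)) (-(s * p3))
      have e1 : (1 : ℝ) ^ 2 * T' 0 x x + 2 * 1 * (-(s * p0) * T' 0 x y +
          -(s * p1) * T' 1 x y + -(s * p2) * T' 2 x y +
          -(s * p3) * T' 3 x y) + ((-(s * p0)) ^ 2 +
          (-(s * p1)) ^ 2 + (-(s * p2)) ^ 2 +
          (-(s * p3)) ^ 2) * T' 0 y y = a' - 2 * (s * P) + s ^ 2 * P * b' := by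
        rw [hP]
        ring
      rw [e1, ← hb0, mul_zero, hs] at h1
      linarith
    · have h1 := qpos_two h' x y b' (-p0) (-p1) (-p2) (-p3)
      have e1 : b' ^ 2 * T' 0 x x + 2 * b' * (-p0 * T' 0 x y + -p1 * T' 1 x y + -p2 * T' 2 x y +
          -p3 * T' 3 x y) + ((-p0) ^ 2 + (-p1) ^ 2 + (-p2) ^ 2 + (-p3) ^ 2) * T' 0 y y =
          b' * (a' * b' - P) := by
        rw [hP]
        ring
      rw [e1] at h1
      have : 0 ≤ a' * b' - P := nonneg_of_mul_nonneg_right h1 hb0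
      linarith
  rcases hb'.eq_or_lt with hb0 | hb0
  · have hP0 : p0 ^ 2 + p1 ^ 2 + p2 ^ 2 + p3 ^ 2 ≤ 0 := by rw [← hb0, mul_zero] at hp; exact hp
    have y0 : p0 = 0 := by nlinarith [sq_nonneg p0, sq_nonneg p1, sq_nonneg p2, sq_nonneg p3]
    have y1 : p1 = 0 := by nlinarith [sq_nonneg p0, sq_nonneg p1, sq_nonneg p2, sq_nonneg p3]
    have y2 : p2 = 0 := by nlinarith [sq_nonneg p0, sq_nonneg p1, sq_nonneg p2, sq_nonneg p3]
    have y3 : p3 = 0 := by nlinarith [sq_nonneg p0, sq_nonneg p1, sq_nonneg p2, sq_nonneg p3]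
    rw [y0, y1, y2, y3, ← hb0]
    have : 0 ≤ a' * b := by positivity
    linarith
  · have h1 := qpos_two h x y b' (-p0) (-p1) (-p2) (-p3)
    have e1 : b' ^ 2 * T 0 x x + 2 * b' * (-p0 * T 0 x y + -p1 * T 1 x y + -p2 * T 2 x y +
        -p3 * T 3 x y) + ((-p0) ^ 2 + (-p1) ^ 2 + (-p2) ^ 2 + (-p3) ^ 2) * T 0 y y =
        b' * (a * b' - 2 * (q0 * p0 + q1 * p1 + q2 * p2 + q3 * p3)) +
          (p0 ^ 2 + p1 ^ 2 + p2 ^ 2 + p3 ^ 2) * b := by ring
    rw [e1] at h1
    have h2 : (p0 ^ 2 + p1 ^ 2 + p2 ^ 2 + p3 ^ 2) * b ≤ a' * b' * b :=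
      mul_le_mul_of_nonneg_right hp hb
    have h3 : 0 ≤ b' * (a * b' - 2 * (q0 * p0 + q1 * p1 + q2 * p2 + q3 * p3) + a' * b) := by
      nlinarith
    have h4 := nonneg_of_mul_nonneg_right h3 hb0
    linarith

theorem MCone.sec {g : V → V} {D : V → V → V → V → ℝ} (h : MCone g D) (x y : V) :
    0 ≤ D x y x y := by
  obtain ⟨r, T, T', hT, hD⟩ := h
  rw [hD]
  exact Finset.sum_nonneg fun j _ => moore_sec (hT j).1.q (hT j).2.q x y

end Pool.Agent.U661.RZ
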