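import Pool.Agent.U661.RZ.Scal
import Pool.Agent.U661.RZ.Sec

/-!
# The scalar curvature bound and the case of equality
-/

set_option autoImplicit false

namespace Pool.Agent.U661.RZ

open Finset Pool.Agent.Y195.HF Pool.Agent.W666.GB Pool.Agent.W669.HD Pool.Agent.U661.HS
open Pool.Agent.U661.RW Pool.Agent.R770.QC
open Pool.Agent.U661.RV hiding co

variable {m : ℕ} {V : Type} [NormedAddCommGroup V] [InnerProductSpace ℝ V]

/-- The trace does not depend on the orthonormal basis. -/
theorem trace_inv {ι : Type} [Fintype ι] (e f : OrthonormalBasis ι ℝ V) {B : V → V → ℝ}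
    (hB : Bl B) : ∑ i, B (f i) (f i) = ∑ i, B (e i) (e i) := by
  classical
  have h1 : ∀ i, B (f i) (f i) =
      ∑ j, ∑ k, (inner ℝ (e j) (f i) : ℝ) * inner ℝ (e k) (f i) * B (e j) (e k) :=
    fun i => bl_expand hB e (f i) (f i)
  simp only [h1]
  rw [Finset.sum_comm]
  refine Finset.sum_congr rfl fun j _ => ?_
  rw [Finset.sum_comm]
  have h2 : ∀ k, ∑ i, (inner ℝ (e j) (f i) : ℝ) * inner ℝ (e k) (f i) * B (e j) (e k) =
      (if j = k then 1 else 0) * B (e j) (e k) := by
    intro k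
    rw [← Finset.sum_mul]
    congr 1
    have h3 := f.sum_inner_mul_inner (e j) (e k)
    rw [orthonormal_iff_ite.mp e.orthonormal j k] at h3
    rw [← h3]
    exact Finset.sum_congr rfl fun i _ => by rw [real_inner_comm (f i) (e k)]
  simp only [h2, ite_mul, one_mul, zero_mul, Finset.sum_ite_eq, Finset.mem_univ, if_true]

/-- A form which is reversed by an isometry has trace zero. -/
theorem trace_rev {ι : Type} [Fintype ι] (e : OrthonormalBasis ι ℝ V) {B : V → V → ℝ}
    (hB : Bl B) (g : V →ₗᵢ[ℝ] V) (hg : Revs g B) : ∑ i, B (e i) (e i) = 0 := by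
  have : FiniteDimensional ℝ V := Module.Finite.of_basis e.toBasis
  have h1 := trace_inv e (e.map (g.toLinearIsometryEquiv rfl)) hB
  have h2 : ∀ i, (e.map (g.toLinearIsometryEquiv rfl)) i = g (e i) := fun i => rfl
  simp only [h2, hg _ _, Finset.sum_neg_distrib] at h1
  linarith

/-- A positive semidefinite form with zero diagonal vanishes. -/
theorem psd_zero {ι : Type} [Fintype ι] (e : OrthonormalBasis ι ℝ V) {Q : V → V → ℝ}
    (hQ : HS.SymForm Q) (h : ∀ x, 0 ≤ Q x x) (h0 : ∀ i, Q (e i) (e i) = 0) (x y : V) :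
    Q x y = 0 := by
  have hb := hQ.bl
  have h1 : ∀ (i : ι) (z : V), Q z (e i) = 0 := by
    intro i z
    by_contra hne
    have h2 := h (z + (-(Q z z + 1) / (2 * Q z (e i))) • e i)
    rw [hb.add, hb.add', hb.add', hb.smul', hb.smul, hb.smul, hb.smul', h0 i, hQ.symm z (e i)] at h2
    have h3 : -(Q z z + 1) / (2 * Q z (e i)) * Q z (e i) = -(Q z z + 1) / 2 := by
      field_simp
    rw [h3] at h2
    linarith
  rw [bl_expand hb e x y]
  refine Finset.sum_eq_zero fun i _ => Finset.sum_eq_zero fun j _ => ?_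
  rw [h1 j (e i), mul_zero]

/-- A tensor with nonnegative sectional curvatures and vanishing scalar curvature vanishes. -/
theorem curv_zero {ι : Type} [Fintype ι] (e : OrthonormalBasis ι ℝ V)
    {D : V → V → V → V → ℝ} (hD : AlgCurv D) (hs : ∀ x y, 0 ≤ D x y x y)
    (h0 : ∑ i, ∑ j, D (e i) (e j) (e i) (e j) ≤ 0) (x y z w : V) : D x y z w = 0 := by
  have h1 : ∀ i j, D (e i) (e j) (e i) (e j) = 0 := by
    intro i j
    have h2 : ∀ i, 0 ≤ ∑ j, D (e i) (e j) (e i) (e j) :=
      fun i => Finset.sum_nonneg fun j _ => hs _ _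
    have h3 : ∑ i, ∑ j, D (e i) (e j) (e i) (e j) = 0 :=
      le_antisymm h0 (Finset.sum_nonneg fun i _ => h2 i)
    have h4 := (Finset.sum_eq_zero_iff_of_nonneg fun i _ => h2 i).1 h3 i (Finset.mem_univ i)
    exact (Finset.sum_eq_zero_iff_of_nonneg fun j _ => hs _ _).1 h4 j (Finset.mem_univ j)
  have h2 : ∀ (j : ι) (x : V), D x (e j) x (e j) = 0 := fun j x =>
    psd_zero e (Q := fun x x' => D x (e j) x' (e j))
      ⟨fun x x' y => hD.add x x' (e j) y (e j), fun t x y => hD.smul t x (e j) y (e j),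
        fun x y => hD.pair x (e j) y (e j)⟩ (fun x => hs x (e j)) (fun i => h1 i j) x x
  have h3 : ∀ x y : V, D x y x y = 0 := fun x y =>
    psd_zero e (Q := fun y y' => D x y x y')
      ⟨fun y y' z => hD.add2 x y y' x z, fun t y z => hD.smul2 t x y x z,
        fun y z => hD.pair x y x z⟩ (fun y => hs x y) (fun j => h2 j x) y y
  have h4 : ∀ x y w : V, D x y x w = 0 := by
    intro x y w
    have h5 := h3 x (y + w)
    rw [hD.add2, hD.add4, hD.add4, h3, h3, hD.pair x y x w] at h5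
    linarith
  have h5 : ∀ x y z w : V, D x y z w = - D z y x w := by
    intro x y z w
    have h6 := h4 (x + z) y w
    rw [hD.add, hD.add3, hD.add3, h4, h4] at h6
    linarith
  have h6 : ∀ x y z w : V, D y z x w = D x y z w := by
    intro x y z w
    rw [h5 x y z w, hD.anti y z x w]
    ring
  have h7 := hD.bianchi x y z w
  rw [h6 x y z w] at h7
  have h8 := h6 y z x w
  rw [h6 x y z w] at h8
  linarith

theorem RevM.mcone {n q : ℕ} {A : Fin n → V → V → ℝ} {h : Fin q → V → V → ℝ}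
    {D : V → V → V → V → ℝ} (hr : RevM A h D) : ∃ g : V →ₗᵢ[ℝ] V, MCone g D := by
  obtain ⟨g, -, h1⟩ := hr 0 0
  rcases h1 with h1 | h1
  · exact ⟨g, h1.2⟩
  · exact ⟨g, h1.2.2.mcone⟩

theorem RevM.trace (e : OrthonormalBasis (Fin m × Bool) ℝ V) {n q : ℕ} {A : Fin n → V → V → ℝ}
    {h : Fin q → V → V → ℝ} {D : V → V → V → V → ℝ} (hh : ∀ b, HS.SymForm (h b))
    (hr : RevM A h D) (b : Fin q) : ∑ i, h b (e i) (e i) = 0 := by
  obtain ⟨g, h1, -⟩ := hr (Pi.single b 1) 0
  have h2 : lcf (Pi.single b 1) h = h b := by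
    funext x y
    simp only [lcf]
    rw [Finset.sum_eq_single b]
    · simp
    · intro c _ hc
      rw [Pi.single_eq_of_ne hc, zero_mul]
    · intro hb
      exact absurd (Finset.mem_univ _) hb
  rw [h2] at h1
  exact trace_rev e (hh b).bl g h1

theorem sq_curv {h : V → V → ℝ} (hh : HS.SymForm h) :
    AlgCurv fun x y z w => h x z * h y w - h x w * h y z :=
  (R770.NS.SymForm.curv ⟨hh.add, hh.smul, hh.symm⟩ : AlgCurv (R770.NS.knSq h))

theorem full_curv {n q : ℕ} {A : Fin n → V → V → ℝ} {h : Fin q → V → V → ℝ}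
    {D : V → V → V → V → ℝ} (hA : ∀ a, SkewForm (A a)) (hh : ∀ b, HS.SymForm (h b))
    (hD : AlgCurv D) (δ : ℝ) : AlgCurv (full (plus δ D) A h) := by
  have h1 := comb_curv (unit_curv (V := V) δ) hD 1 1
  have h2 := sum_curv fun a => (hA a).curv
  have h3 := sum_curv fun b => sq_curv (hh b)
  have h4 := comb_curv (comb_curv h1 h2 1 1) h3 1 (-1)
  have e : full (plus δ D) A h = fun x y z w => 1 * (1 * (1 * (δ * unitT x y z w) +
      1 * D x y z w) + 1 * ∑ a, skewCurv (A a) x y z w) +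
      (-1) * ∑ b, (h b x z * h b y w - h b x w * h b y z) := by
    funext x y z w
    simp only [full, plus]
    ring
  rw [e]
  exact h4

theorem neg_curv {R : V → V → V → V → ℝ} (hR : AlgCurv R) : AlgCurv (negT R) := by
  have h1 := comb_curv hR hR (-1) 0
  have e : negT R = fun x y z w => (-1) * R x y z w + 0 * R x y z w := by
    funext x y z w
    simp only [negT]
    ring
  rw [e]
  exact h1

theorem cp_full (e : OrthonormalBasis (Fin m × Bool) ℝ V) (δ : ℝ) {n q : ℕ}
    (A : Fin n → V → V → ℝ) (h : Fin q → V → V → ℝ) (D : V → V → V → V → ℝ) :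
    (cp e (full (plus δ D) A h) : T4 m) = dD δ (rest (cp e D) (fun a i j => A a (e i) (e j))
      (fun b i j => h b (e i) (e j))) := by
  funext i j k l
  simp only [cp, full, plus, dD, rest, uT, cp_unit, skewCurv, scR, sqM]
  ring

theorem tr4_curv (e : OrthonormalBasis (Fin m × Bool) ℝ V) {F : V → V → V → V → ℝ}
    (hF : AlgCurv F) : tr4 (cp e F) = 2 * scal e F := by
  unfold tr4 scal
  rw [Finset.mul_sum]
  refine Finset.sum_congr rfl fun i _ => ?_
  rw [Finset.mul_sum]
  refine Finset.sum_congr rfl fun j _ => ?_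
  simp only [cp]
  rw [hF.a34 (e i) (e j) (e j) (e i)]
  ring

theorem tr4_unit : tr4 (uT : T4 m) = 2 * (2 * m * (2 * m - 1)) := by
  have h1 : ∀ i j : Fin m × Bool, (uT : T4 m) i j i j - (uT : T4 m) i j j i =
      2 - (if i = j then 2 else 0) := by
    intro i j
    simp only [uT, unitCurv]
    by_cases h : i = j
    · simp [h]
    · simp [h, Ne.symm h]
      norm_num
  unfold tr4
  simp only [h1, Finset.sum_sub_distrib, Finset.sum_const, Finset.card_univ, Fintype.card_prod,
    Fintype.card_fin, Fintype.card_bool, nsmul_eq_mul, Finset.sum_ite_eq, Finset.mem_univ, if_true]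
  push_cast
  ring

theorem tr4_dD (δ : ℝ) (K : T4 m) : tr4 (dD δ K) = δ * (2 * (2 * m * (2 * m - 1))) + tr4 K := by
  rw [← tr4_unit]
  unfold tr4
  rw [Finset.mul_sum, ← Finset.sum_add_distrib]
  refine Finset.sum_congr rfl fun i _ => ?_
  rw [Finset.mul_sum, ← Finset.sum_add_distrib]
  refine Finset.sum_congr rfl fun j _ => ?_
  simp only [dD]
  ring

theorem scal_neg (e : OrthonormalBasis (Fin m × Bool) ℝ V) (F : V → V → V → V → ℝ) :
    scal e (negT F) = - scal e F := by
  unfold scal negT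
  simp only [Finset.sum_neg_distrib]

theorem unit_scal : ∑ i : Fin m × Bool, ∑ j : Fin m × Bool, (unitCurv i j i j : ℝ) =
    2 * m * (2 * m - 1) := by
  have h := tr4_unit (m := m)
  unfold tr4 at h
  have h1 : ∀ i j : Fin m × Bool, (uT : T4 m) i j i j - (uT : T4 m) i j j i =
      2 * unitCurv i j i j := by
    intro i j
    simp only [uT, unitCurv]
    by_cases h : i = j
    · simp [h]
    · simp [h, Ne.symm h]
      norm_num
  simp only [h1, ← Finset.mul_sum] at h
  linarith

theorem swap3 {α β γ : Type} [Fintype α] [Fintype β] [Fintype γ] (F : α → β → γ → ℝ) :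
    ∑ i, ∑ j, ∑ a, F i j a = ∑ a, ∑ i, ∑ j, F i j a := by
  have h : ∀ i, ∑ j, ∑ a, F i j a = ∑ a, ∑ j, F i j a := fun i => Finset.sum_comm
  simp only [h]
  rw [Finset.sum_comm]

/-- The scalar curvature. -/
theorem scal_full (e : OrthonormalBasis (Fin m × Bool) ℝ V) (δ : ℝ) {n q : ℕ}
    {A : Fin n → V → V → ℝ} {h : Fin q → V → V → ℝ} (D : V → V → V → V → ℝ)
    (hA : ∀ a, SkewForm (A a)) (hh : ∀ b, HS.SymForm (h b))
    (ht : ∀ b, ∑ i, h b (e i) (e i) = 0) :
    scal e (full (plus δ D) A h) = δ * (2 * m * (2 * m - 1)) +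
      ∑ i, ∑ j, D (e i) (e j) (e i) (e j) + ∑ a, ∑ i, ∑ j, 3 * A a (e i) (e j) ^ 2 +
      ∑ b, ∑ i, ∑ j, h b (e i) (e j) ^ 2 := by
  have h1 : ∀ i j, full (plus δ D) A h (e i) (e j) (e i) (e j) = δ * unitCurv i j i j +
      D (e i) (e j) (e i) (e j) + ∑ a, 3 * A a (e i) (e j) ^ 2 -
      (∑ b, h b (e i) (e i) * h b (e j) (e j) - ∑ b, h b (e i) (e j) ^ 2) := by
    intro i j
    simp only [full, plus, cp_unit]
    congr 1
    · congr 1
      refine Finset.sum_congr rfl fun a _ => ?_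
      have z1 : A a (e i) (e i) = 0 := by have := (hA a).anti (e i) (e i); linarith
      simp only [skewCurv]
      rw [(hA a).anti (e i) (e j), z1]
      ring
    · rw [← Finset.sum_sub_distrib]
      refine Finset.sum_congr rfl fun b _ => ?_
      rw [(hh b).symm (e i) (e j)]
      ring
  have h2 : ∑ i, ∑ j, ∑ b, h b (e i) (e i) * h b (e j) (e j) = 0 := by
    have h3 : ∀ i, ∑ j, ∑ b, h b (e i) (e i) * h b (e j) (e j) = 0 := by
      intro i
      rw [Finset.sum_comm]
      refine Finset.sum_eq_zero fun b _ => ?_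
      rw [← Finset.mul_sum, ht b, mul_zero]
    exact Finset.sum_eq_zero fun i _ => h3 i
  have h4 := swap3 (fun i j a => 3 * A a (e i) (e j) ^ 2)
  have h5 := swap3 (fun i j b => h b (e i) (e j) ^ 2)
  unfold scal
  simp only [h1, Finset.sum_add_distrib, Finset.sum_sub_distrib]
  rw [h2, h4, h5, ← unit_scal]
  simp only [Finset.mul_sum]
  ring

/-- The second term of the expansion of `roundGB` at `δ`: with `s = - 2 m (2 m - 1) κ`, where `-κ`
is the mean of the sectional curvatures, this is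
`(2 m)! / ((4 π)^m m!) (δ^m + m δ^(m-1) (κ - δ))`. -/
noncomputable def tangGB (m : ℕ) (δ s : ℝ) : ℝ :=
  roundGB m 1 * (δ ^ (m - 1) * (- s / (2 * (2 * m - 1)) - (m - 1) * δ))

theorem tang_add {k : ℕ} (δ s : ℝ) : tangGB (k + 1) δ s = roundGB (k + 1) δ +
    roundGB (k + 1) 1 * (δ ^ k * ((- s - δ * (2 * (k + 1) * (2 * (k + 1) - 1))) /
      (2 * (2 * (k + 1) - 1)))) := by
  have h : (2 * ((k : ℝ) + 1) - 1) ≠ 0 := by
    have : (0 : ℝ) ≤ k := Nat.cast_nonneg k
    intro h
    linarith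
  unfold tangGB roundGB
  rw [Nat.add_sub_cancel, one_pow, pow_succ δ k]
  push_cast
  field_simp
  ring

/-- The bound by the scalar curvature. -/
theorem revM_scal (e : OrthonormalBasis (Fin m × Bool) ℝ V) (hm : 0 < m) {δ : ℝ} (hδ : 0 ≤ δ)
    {n q : ℕ} {A : Fin n → V → V → ℝ} {h : Fin q → V → V → ℝ} {D : V → V → V → V → ℝ}
    (hA : ∀ a, SkewForm (A a)) (hh : ∀ b, HS.SymForm (h b)) (hr : RevM A h D) :
    tangGB m δ (scal e (negT (full (plus δ D) A h))) ≤
      (-1) ^ m * gbc e (negT (full (plus δ D) A h)) := by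
  obtain ⟨k, rfl⟩ : ∃ k, m = k + 1 := ⟨m - 1, by omega⟩
  have hK := hr.revK e hA hh
  have hπ := Real.pi_pos
  have hc : 0 < 1 / ((8 * Real.pi) ^ (k + 1) * ((k + 1).factorial : ℝ)) := by positivity
  obtain ⟨g, hD⟩ := hr.mcone
  have hF := full_curv hA hh hD.curv δ
  have h1 := gm_scal (fun a i j => (hA a).anti _ _) (fun b i j => (hh b).symm _ _) hK hδ
    (k := k) rfl
  have h0 : roundGB (k + 1) δ = gbc e (fun x y z w => δ * unitT x y z w) := by
    rw [← gbc_unit e, RV.gbc_neg]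
  have h0' : roundGB (k + 1) δ = 1 / ((8 * Real.pi) ^ (k + 1) * ((k + 1).factorial : ℝ)) *
      gm (fun _ : Fin (k + 1) => (fun x y z w => δ * (uT : T4 (k + 1)) x y z w :
        T4 (k + 1))) := by
    rw [h0, gbc_gm]
    congr 2
    funext _ x y z w
    simp only [cp, uT, cp_unit]
  have h2 := tr4_curv e hF
  rw [cp_full, tr4_dD] at h2
  rw [RV.gbc_neg, gbc_gm, cp_full, scal_neg, tang_add]
  have h3 := mul_le_mul_of_nonneg_left h1 hc.le
  rw [mul_add, ← h0'] at h3
  refine le_trans (le_of_eq ?_) h3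
  congr 1
  have h4 : tr4 (rest (cp e D) (fun a i j => A a (e i) (e j)) (fun b i j => h b (e i) (e j))) =
      2 * (scal e (full (plus δ D) A h) - δ * (2 * (k + 1) * (2 * (k + 1) - 1))) := by
    push_cast at h2
    linarith
  rw [h4]
  have e1 : 2 * (k + 1) - 2 = 2 * k := by omega
  have e2 : ((2 * (k + 1)).factorial : ℝ) = (2 * k + 2) * (2 * k + 1) * (2 * k).factorial := by
    rw [show 2 * (k + 1) = 2 * k + 1 + 1 by ring, Nat.factorial_succ, Nat.factorial_succ]
    push_cast
    ring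
  have e3 : (8 * Real.pi) ^ (k + 1) = 2 ^ (k + 1) * (4 * Real.pi) ^ (k + 1) := by
    rw [← mul_pow]
    congr 1
    ring
  have e4 : (2 * ((k : ℝ) + 1) - 1) ≠ 0 := by
    have : (0 : ℝ) ≤ k := Nat.cast_nonneg k
    intro h
    linarith
  unfold roundGB
  rw [e1, e2, e3, one_pow, pow_succ (2 : ℝ) k]
  push_cast
  field_simp
  ring

end Pool.Agent.U661.RZ
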