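import Pool.Agent.U661.RZ.Rig

/-!
# Rigidity and integrated forms
-/

set_option autoImplicit false

namespace Pool.Agent.U661.RZ

open Finset Pool.Agent.Y195.HF Pool.Agent.W666.GB Pool.Agent.W669.HD Pool.Agent.U661.HS
open Pool.Agent.U661.RW Pool.Agent.R770.QC
open Pool.Agent.U661.RV hiding co

variable {m : ℕ} {V : Type} [NormedAddCommGroup V] [InnerProductSpace ℝ V]

/-- The excess of the scalar curvature. -/
theorem scal_excess (e : OrthonormalBasis (Fin m × Bool) ℝ V) {δ : ℝ}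
    {n q : ℕ} {A : Fin n → V → V → ℝ} {h : Fin q → V → V → ℝ} {D : V → V → V → V → ℝ}
    (hA : ∀ a, SkewForm (A a)) (hh : ∀ b, HS.SymForm (h b)) (hr : RevM A h D) :
    - scal e (negT (full (plus δ D) A h)) - δ * (2 * m * (2 * m - 1)) =
      ∑ i, ∑ j, D (e i) (e j) (e i) (e j) + ∑ a, ∑ i, ∑ j, 3 * A a (e i) (e j) ^ 2 +
      ∑ b, ∑ i, ∑ j, h b (e i) (e j) ^ 2 := by
  rw [scal_neg, scal_full e δ D hA hh (hr.trace e hh)]
  ring

theorem scal_excess_nonneg (e : OrthonormalBasis (Fin m × Bool) ℝ V) {δ : ℝ}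
    {n q : ℕ} {A : Fin n → V → V → ℝ} {h : Fin q → V → V → ℝ} {D : V → V → V → V → ℝ}
    (hA : ∀ a, SkewForm (A a)) (hh : ∀ b, HS.SymForm (h b)) (hr : RevM A h D) :
    0 ≤ - scal e (negT (full (plus δ D) A h)) - δ * (2 * m * (2 * m - 1)) := by
  rw [scal_excess e hA hh hr]
  obtain ⟨g, hD⟩ := hr.mcone
  have h1 : 0 ≤ ∑ i, ∑ j, D (e i) (e j) (e i) (e j) :=
    Finset.sum_nonneg fun i _ => Finset.sum_nonneg fun j _ => hD.sec _ _
  have h2 : 0 ≤ ∑ a, ∑ i, ∑ j, 3 * A a (e i) (e j) ^ 2 := by positivity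
  have h3 : 0 ≤ ∑ b, ∑ i, ∑ j, h b (e i) (e j) ^ 2 := by positivity
  linarith

theorem revM_tang (e : OrthonormalBasis (Fin m × Bool) ℝ V) (hm : 0 < m) {δ : ℝ} (hδ : 0 ≤ δ)
    {n q : ℕ} {A : Fin n → V → V → ℝ} {h : Fin q → V → V → ℝ} {D : V → V → V → V → ℝ}
    (hA : ∀ a, SkewForm (A a)) (hh : ∀ b, HS.SymForm (h b)) (hr : RevM A h D) :
    roundGB m δ ≤ tangGB m δ (scal e (negT (full (plus δ D) A h))) := by
  have h1 := scal_excess_nonneg (δ := δ) e hA hh hr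
  obtain ⟨k, rfl⟩ : ∃ k, m = k + 1 := ⟨m - 1, by omega⟩
  rw [tang_add]
  push_cast at h1
  have h2 : 0 < roundGB (k + 1) 1 := roundGB_pos one_pos
  have h3 : 0 ≤ δ ^ k := pow_nonneg hδ k
  have h4 : (0 : ℝ) < 2 * (2 * (k + 1) - 1) := by
    have : (0 : ℝ) ≤ k := Nat.cast_nonneg k
    linarith
  have h5 : 0 ≤ roundGB (k + 1) 1 * (δ ^ k * ((- scal e (negT (full (plus δ D) A h)) -
      δ * (2 * (k + 1) * (2 * (k + 1) - 1))) / (2 * (2 * (k + 1) - 1)))) := by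
    positivity
  linarith

theorem sq_sum_zero {ι : Type} [Fintype ι] {n : ℕ} {F : Fin n → ι → ι → ℝ} {c : ℝ} (hc : 0 < c)
    (h : ∑ a, ∑ i, ∑ j, c * F a i j ^ 2 ≤ 0) (a : Fin n) (i j : ι) : F a i j = 0 := by
  have h1 : ∀ a i j, 0 ≤ c * F a i j ^ 2 := fun a i j => by positivity
  have h2 : ∀ a i, 0 ≤ ∑ j, c * F a i j ^ 2 := fun a i => Finset.sum_nonneg fun j _ => h1 a i j
  have h3 : ∀ a, 0 ≤ ∑ i, ∑ j, c * F a i j ^ 2 := fun a => Finset.sum_nonneg fun i _ => h2 a i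
  have h4 : ∑ a, ∑ i, ∑ j, c * F a i j ^ 2 = 0 :=
    le_antisymm h (Finset.sum_nonneg fun a _ => h3 a)
  have h5 := (Finset.sum_eq_zero_iff_of_nonneg fun a _ => h3 a).1 h4 a (Finset.mem_univ a)
  have h6 := (Finset.sum_eq_zero_iff_of_nonneg fun i _ => h2 a i).1 h5 i (Finset.mem_univ i)
  have h7 := (Finset.sum_eq_zero_iff_of_nonneg fun j _ => h1 a i j).1 h6 j (Finset.mem_univ j)
  have h8 : F a i j ^ 2 = 0 := by
    rcases mul_eq_zero.1 h7 with h | h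
    · exact absurd h hc.ne'
    · exact h
  exact pow_eq_zero_iff (two_ne_zero) |>.1 h8

theorem bl_zero {ι : Type} [Fintype ι] (e : OrthonormalBasis ι ℝ V) {B : V → V → ℝ} (hB : Bl B)
    (h : ∀ i j, B (e i) (e j) = 0) (x y : V) : B x y = 0 := by
  rw [bl_expand hB e x y]
  exact Finset.sum_eq_zero fun i _ => Finset.sum_eq_zero fun j _ => by rw [h i j, mul_zero]

/-- If the scalar curvature is the one of constant curvature `-δ`, all the terms vanish. -/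
theorem scal_rigid (e : OrthonormalBasis (Fin m × Bool) ℝ V) {δ : ℝ}
    {n q : ℕ} {A : Fin n → V → V → ℝ} {h : Fin q → V → V → ℝ} {D : V → V → V → V → ℝ}
    (hA : ∀ a, SkewForm (A a)) (hh : ∀ b, HS.SymForm (h b)) (hr : RevM A h D)
    (h0 : - scal e (negT (full (plus δ D) A h)) - δ * (2 * m * (2 * m - 1)) ≤ 0) :
    (∀ a x y, A a x y = 0) ∧ (∀ b x y, h b x y = 0) ∧ ∀ x y z w, D x y z w = 0 := by
  rw [scal_excess e hA hh hr] at h0
  obtain ⟨g, hD⟩ := hr.mcone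
  have h1 : 0 ≤ ∑ i, ∑ j, D (e i) (e j) (e i) (e j) :=
    Finset.sum_nonneg fun i _ => Finset.sum_nonneg fun j _ => hD.sec _ _
  have h2 : 0 ≤ ∑ a, ∑ i, ∑ j, 3 * A a (e i) (e j) ^ 2 := by positivity
  have h3 : 0 ≤ ∑ b, ∑ i, ∑ j, h b (e i) (e j) ^ 2 := by positivity
  have h3' : ∑ b, ∑ i, ∑ j, 1 * h b (e i) (e j) ^ 2 ≤ 0 := by
    simp only [one_mul]
    linarith
  refine ⟨fun a => bl_zero e (skew_bl (hA a)) fun i j =>
    sq_sum_zero (F := fun a i j => A a (e i) (e j)) (c := 3) (by norm_num) (by linarith) a i j,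
    fun b => bl_zero e (hh b).bl fun i j =>
      sq_sum_zero (F := fun b i j => h b (e i) (e j)) one_pos h3' b i j,
    curv_zero e hD.curv hD.sec (by linarith)⟩

/-- The case of equality. -/
theorem revM_rigid (e : OrthonormalBasis (Fin m × Bool) ℝ V) (hm : 0 < m) {δ : ℝ} (hδ : 0 < δ)
    {n q : ℕ} {A : Fin n → V → V → ℝ} {h : Fin q → V → V → ℝ} {D : V → V → V → V → ℝ}
    (hA : ∀ a, SkewForm (A a)) (hh : ∀ b, HS.SymForm (h b)) (hr : RevM A h D)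
    (heq : (-1) ^ m * gbc e (negT (full (plus δ D) A h)) ≤ roundGB m δ) :
    (∀ a x y, A a x y = 0) ∧ (∀ b x y, h b x y = 0) ∧ ∀ x y z w, D x y z w = 0 := by
  have h1 := (revM_scal e hm hδ.le hA hh hr).trans heq
  refine scal_rigid (δ := δ) e hA hh hr ?_
  obtain ⟨k, rfl⟩ : ∃ k, m = k + 1 := ⟨m - 1, by omega⟩
  rw [tang_add] at h1
  push_cast
  have h2 : 0 < roundGB (k + 1) 1 := roundGB_pos one_pos
  have h3 : 0 < δ ^ k := pow_pos hδ k
  have h4 : (0 : ℝ) < 2 * (2 * (k + 1) - 1) := by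
    have : (0 : ℝ) ≤ k := Nat.cast_nonneg k
    linarith
  set X := - scal e (negT (full (plus δ D) A h)) - δ * (2 * (k + 1) * (2 * (k + 1) - 1)) with hX
  have h5 : roundGB (k + 1) 1 * (δ ^ k * (X / (2 * (2 * (k + 1) - 1)))) ≤ 0 := by linarith
  by_contra hcon
  push Not at hcon
  have h6 : 0 < roundGB (k + 1) 1 * (δ ^ k * (X / (2 * (2 * (k + 1) - 1)))) := by positivity
  linarith

/-- The tensor in the case of equality. -/
theorem negRevM_rigid (e : OrthonormalBasis (Fin m × Bool) ℝ V) (hm : 0 < m) {δ : ℝ} (hδ : 0 < δ)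
    {R : V → V → V → V → ℝ} (h : NegRevM δ R) (heq : (-1) ^ m * gbc e R ≤ roundGB m δ) :
    ∀ x y z w, R x y z w = -(δ * unitT x y z w) := by
  obtain ⟨n, q, A, h, D, hA, hh, hR, rfl⟩ := h
  obtain ⟨h1, h2, h3⟩ := revM_rigid e hm hδ hA hh hR heq
  intro x y z w
  simp only [negT, full, plus, skewCurv, h1, h2, h3]
  simp

theorem negRevM_tang (e : OrthonormalBasis (Fin m × Bool) ℝ V) (hm : 0 < m)
    {R : V → V → V → V → ℝ} {δ : ℝ} (hδ : 0 ≤ δ) (h : NegRevM δ R) :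
    roundGB m δ ≤ tangGB m δ (scal e R) ∧ tangGB m δ (scal e R) ≤ (-1) ^ m * gbc e R := by
  obtain ⟨n, q, A, h, D, hA, hh, hR, rfl⟩ := h
  exact ⟨revM_tang e hm hδ hA hh hR, revM_scal e hm hδ hA hh hR⟩

end Pool.Agent.U661.RZ
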