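import Pool.Agent.U661.RZ.Lin
import Pool.Agent.U661.RZ.Ex

/-!
# The scalar curvature term
-/

set_option autoImplicit false

namespace Pool.Agent.U661.RZ

open Finset Pool.Agent.Y195.HF Pool.Agent.W666.GB Pool.Agent.W669.HD Pool.Agent.U661.HS
open Pool.Agent.U661.RW Pool.Agent.R770.QC
open Pool.Agent.U661.RV hiding co

variable {m : ℕ}

section alg

variable {κ : Type} [Fintype κ] {ι : Type} [Fintype ι]

theorem u_mem {f : Ed m} (hf : Fx f (ff false true (idM : Mt m))) {δ : ℝ} (hδ : 0 ≤ δ) :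
    (-2 * δ : ℝ) • ff false true (idM : Mt m) ^ 2 ∈ Kc f 1 := by
  have h2 := Kc_gen (f := f) (n := 1) (r := 2 * δ) (by positivity) (L := [oneq m, oneq m])
    (fun X hX => by
      have : X = oneq m := by simpa using hX
      rw [this]
      exact ⟨pdq_one, by rw [xq_one]; exact hf⟩) rfl
  convert h2 using 1
  rw [prq, List.map_cons, List.map_cons, List.map_nil, List.prod_cons, List.prod_cons,
    List.prod_nil, mul_one, xq_one, Complex.coe_smul, sq]
  congr 1
  ring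

/-- Positivity with three kinds of factors. -/
theorem revK_pos2 {A : κ → Fin m × Bool → Fin m × Bool → ℝ} (hA : ∀ a i j, A a j i = - A a i j)
    {H : ι → Fin m × Bool → Fin m × Bool → ℝ} (hH : ∀ a i j, H a i j = H a j i)
    {D : Zc (I2 m → ℂ)} (h : RevK A H D) {δ : ℝ} (hδ : 0 ≤ δ)
    {N k n : ℕ} (hN : N + k + n = m) :
    0 ≤ LR m ((∑ a, qi (cm (A a)) + ∑ a, xs (H a) ^ 2) ^ N *
      (((-2 * δ : ℝ) • ff false true (idM : Mt m) ^ 2) ^ k * D ^ n)) := by
  classical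
  have e : ∑ a, qi (cm (A a) : Mt m) + ∑ a, xs (H a) ^ 2 =
      ∑ i : (κ × Fin 3) ⊕ ι, (Sum.elim (xf fun a => (cm (A a) : Mt m))
        (fun a => xs (H a)) i) ^ 2 := by
    rw [Fintype.sum_sum_type, ← xf_sq]
    simp only [Sum.elim_inl, Sum.elim_inr]
  rw [e]
  refine gauss_pos (Sum.elim (xf fun a => (cm (A a) : Mt m)) (fun a => xs (H a))) _ (LR m) N
    fun ξ => ?_
  obtain ⟨f, hf, h1, hD⟩ := h ![fun a => ξ (Sum.inl (a, 0)), fun a => ξ (Sum.inl (a, 1)),
    fun a => ξ (Sum.inl (a, 2))] (fun a => ξ (Sum.inr a))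
  rw [Fintype.sum_sum_type]
  simp only [Sum.elim_inl, Sum.elim_inr]
  rw [xf_sum (fun a => (cm (A a) : Mt m)) (fun i => ξ (Sum.inl i)),
    ← xs_sum (fun a => ξ (Sum.inr a)) H, rc_rs, rc_rs, rc_rs]
  set W : Qd m := ![rs (fun a => ξ (Sum.inr a)) H, rs (fun a => ξ (Sum.inl (a, 0))) A,
    rs (fun a => ξ (Sum.inl (a, 1))) A, rs (fun a => ξ (Sum.inl (a, 2))) A] with hWd
  have hW : Hq W :=
    ⟨fun i j => rs_symm hH _ i j, fun i j => rs_skew hA _ i j, fun i j => rs_skew hA _ i j,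
      fun i j => rs_skew hA _ i j⟩
  have h3 : xq W = WW (cm (rs (fun a => ξ (Sum.inl (a, 0))) A))
      (cm (rs (fun a => ξ (Sum.inl (a, 1))) A)) (cm (rs (fun a => ξ (Sum.inl (a, 2))) A)) +
      xs (rs (fun a => ξ (Sum.inr a)) H) := rfl
  rw [← h3, ← mul_assoc]
  exact Kb.pos hW hf h1 (N := N) (k := k) (n := n) (by omega) (u_mem hf hδ) hD

/-- the tensor without its multiple of the unit tensor -/
noncomputable def rest (D : T4 m) (A : κ → Fin m × Bool → Fin m × Bool → ℝ)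
    (H : ι → Fin m × Bool → Fin m × Bool → ℝ) : T4 m := fun i j k l =>
  D i j k l + ∑ a, scR (A a) i j k l - ∑ a, sqM (H a) i j k l

theorem eL_rest (D : T4 m) (A : κ → Fin m × Bool → Fin m × Bool → ℝ)
    (H : ι → Fin m × Bool → Fin m × Bool → ℝ) : eL (cx (rest D A H)) =
      eL (cx D) + (2 : ℂ) • (∑ a, qi (cm (A a)) + ∑ a, xs (H a) ^ 2) := by
  have e0 : (cx (rest D A H) : C4 m) = fun i j k l => (fun i j k l => cx D i j k l +
      (fun i j k l => ∑ a : κ, (fun a => (cx (scR (A a)) : C4 m)) a i j k l : C4 m) i j k l :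
        C4 m) i j k l +
      (fun i j k l => (-1 : ℂ) * (fun i j k l => ∑ a : ι, (fun a => (cx (sqM (H a)) : C4 m))
        a i j k l : C4 m) i j k l : C4 m) i j k l := by
    funext i j k l
    simp only [cx, rest]
    push_cast
    ring
  rw [e0, eL_add, eL_add, eL_smul, eL_sum, eL_sum, smul_add, Finset.smul_sum,
    Finset.smul_sum, Finset.smul_sum, ← add_assoc]
  congr 1
  · congr 1
    exact Finset.sum_congr rfl fun a _ => eL_scR (A a)
  · refine Finset.sum_congr rfl fun a _ => ?_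
    rw [eL_sqM, smul_smul]
    norm_num

theorem rest_pos {D : T4 m} {A : κ → Fin m × Bool → Fin m × Bool → ℝ}
    {H : ι → Fin m × Bool → Fin m × Bool → ℝ}
    (hA : ∀ a i j, A a j i = - A a i j) (hH : ∀ a i j, H a i j = H a j i)
    (h : RevK A H (eL (cx D))) {δ : ℝ} (hδ : 0 ≤ δ) {a k : ℕ} (hak : a + k = m) :
    0 ≤ LR m (((-2 * δ : ℝ) • ff false true (idM : Mt m) ^ 2) ^ a *
      eL (cx (rest D A H)) ^ k) := by
  set u : Zc (I2 m → ℂ) := (-2 * δ : ℝ) • ff false true (idM : Mt m) ^ 2 with hu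
  set Z : Zc (I2 m → ℂ) := ∑ a, qi (cm (A a)) + ∑ a, xs (H a) ^ 2 with hZ
  rw [eL_rest, ← hZ, add_pow, Finset.mul_sum, map_sum]
  refine Finset.sum_nonneg fun j hj => ?_
  rw [Finset.mem_range] at hj
  have h1 := revK_pos2 hA hH h hδ (N := k - j) (k := a) (n := j) (by omega)
  rw [← hZ, ← hu] at h1
  have e1 : u ^ a * (eL (cx D) ^ j * ((2 : ℂ) • Z) ^ (k - j) *
      ((k.choose j : ℕ) : Zc (I2 m → ℂ))) =
      (((k.choose j : ℕ) : ℝ) * 2 ^ (k - j)) • (Z ^ (k - j) * (u ^ a * eL (cx D) ^ j)) := by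
    rw [smul_pow, ← Complex.coe_smul]
    push_cast
    simp only [Algebra.smul_def, map_mul, map_natCast, map_pow, map_ofNat]
    ring
  rw [e1, map_smul, smul_eq_mul]
  positivity

/-- trace of a tensor -/
def tr4 (K : T4 m) : ℝ := ∑ i, ∑ j, (K i j i j - K i j j i)

theorem LR_lin (K : T4 m) (δ : ℝ) {k : ℕ} (hk : k + 1 = m) :
    LR m (((-2 * δ : ℝ) • ff false true (idM : Mt m) ^ 2) ^ k * eL (cx K)) =
      2 ^ k * δ ^ k * (2 * m - 2).factorial * tr4 K := by
  have h := lin_term (cx K)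
  have e0 : 2 * m - 2 = 2 * k := by omega
  have h1 : ((-2 * δ : ℝ) • ff false true (idM : Mt m) ^ 2) ^ k * eL (cx K) =
      ((-2 * δ) ^ k : ℝ) • (ff false true (idM : Mt m) ^ (2 * m - 2) * eL (cx K)) := by
    rw [smul_pow, ← pow_mul, smul_mul_assoc, e0]
  rw [h1, map_smul, LR_apply, ← Lf_apply, h, smul_eq_mul]
  have h2 : (-(((2 * m - 2).factorial : ℂ) * (-1) ^ m) * ∑ i, ∑ j,
      (cx K i j i j - cx K i j j i)) =
      ((-(((2 * m - 2).factorial : ℝ) * (-1) ^ m) * tr4 K : ℝ) : ℂ) := by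
    unfold tr4
    simp only [cx]
    push_cast
    rfl
  rw [h2, Complex.ofReal_re]
  have h3 : (-2 * δ) ^ k * (-1 : ℝ) ^ k = 2 ^ k * δ ^ k := by
    rw [← mul_pow, ← mul_pow]
    congr 1
    ring
  have h5 : (-1 : ℝ) ^ m = (-1) ^ k * (-1) := by
    rw [← pow_succ, hk]
  rw [h5]
  linear_combination (((2 * m - 2).factorial : ℝ) * tr4 K) * h3

/-- The algebraic inequality with the scalar curvature. -/
theorem gm_scal {D : T4 m} {A : κ → Fin m × Bool → Fin m × Bool → ℝ}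
    {H : ι → Fin m × Bool → Fin m × Bool → ℝ}
    (hA : ∀ a i j, A a j i = - A a i j) (hH : ∀ a i j, H a i j = H a j i)
    (h : RevK A H (eL (cx D))) {δ : ℝ} (hδ : 0 ≤ δ) {k : ℕ} (hk : k + 1 = m) :
    gm (fun _ : Fin m => (fun i j k l => δ * (uT : T4 m) i j k l : T4 m)) +
      m * (2 ^ k * δ ^ k * (2 * m - 2).factorial * tr4 (rest D A H)) ≤
      gm (fun _ : Fin m => dD δ (rest D A H)) := by
  set u : Zc (I2 m → ℂ) := (-2 * δ : ℝ) • ff false true (idM : Mt m) ^ 2 with hu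
  have e1 : eL (cx (fun i j k l => δ * (uT : T4 m) i j k l : T4 m)) = u := by
    have h := eL_dD δ (fun _ _ _ _ => 0 : T4 m)
    have h2 : (dD δ (fun _ _ _ _ => 0 : T4 m)) = fun i j k l => δ * (uT : T4 m) i j k l := by
      funext i j k l
      simp only [dD, add_zero]
    have h3 : eL (cx (fun _ _ _ _ => 0 : T4 m)) = 0 := by
      have h4 := eL_smul (m := m) 0 (cx (fun _ _ _ _ => 0 : T4 m))
      rw [zero_smul] at h4
      rw [← h4]
      congr 1
      funext i j k l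
      simp [cx]
    rw [h2, h3, add_zero] at h
    exact h
  rw [gm_LR, gm_LR, eL_dD, e1, ← hu, add_pow, map_sum, ← LR_lin (rest D A H) δ hk, ← hu,
    Finset.sum_range_succ]
  set Y := eL (cx (rest D A H)) with hY
  have h1 : u ^ m * Y ^ (m - m) * ((m.choose m : ℕ) : Zc (I2 m → ℂ)) = u ^ m := by
    rw [Nat.sub_self, pow_zero, Nat.choose_self, Nat.cast_one, mul_one, mul_one]
  have h2 : ∑ x ∈ Finset.range m, LR m (u ^ x * Y ^ (m - x) *
      ((m.choose x : ℕ) : Zc (I2 m → ℂ))) = ∑ x ∈ Finset.range k, LR m (u ^ x * Y ^ (m - x) *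
      ((m.choose x : ℕ) : Zc (I2 m → ℂ))) + m * LR m (u ^ k * Y) := by
    have e2 : Finset.range m = Finset.range (k + 1) := by rw [hk]
    rw [e2, Finset.sum_range_succ]
    congr 1
    have e3 : m - k = 1 := by omega
    have e4 : m.choose k = m := by
      rw [← hk]
      exact Nat.choose_succ_self_right k
    rw [e3, e4, pow_one]
    have e5 : u ^ k * Y * (m : Zc (I2 m → ℂ)) = (m : ℝ) • (u ^ k * Y) := by
      rw [Algebra.smul_def, map_natCast, mul_comm]
    rw [e5, map_smul, smul_eq_mul]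
  rw [h1, h2]
  have h3 : 0 ≤ ∑ x ∈ Finset.range k, LR m (u ^ x * Y ^ (m - x) *
      ((m.choose x : ℕ) : Zc (I2 m → ℂ))) := by
    refine Finset.sum_nonneg fun x hx => ?_
    rw [Finset.mem_range] at hx
    have h4 := rest_pos hA hH h hδ (a := x) (k := m - x) (by omega)
    rw [← hu, ← hY] at h4
    have e2 : u ^ x * Y ^ (m - x) * ((m.choose x : ℕ) : Zc (I2 m → ℂ)) =
        ((m.choose x : ℕ) : ℝ) • (u ^ x * Y ^ (m - x)) := by
      simp only [Algebra.smul_def, map_natCast]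
      ring
    rw [e2, map_smul, smul_eq_mul]
    positivity
  linarith

end alg

end Pool.Agent.U661.RZ
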